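import Pool.Agent.Q292.Lam.Glue

/-!
Open circuits in dyadic annuli.
-/

set_option autoImplicit false

namespace Q292.Lam

open Finset H974 Pool.Agent.W424.NC

/-- an open circuit in the annulus of scale `k` -/
def Ck (k : ℕ) (F : Finset Edg) : Prop :=
  Circ (((2 ^ k : ℕ) : ℤ) + 1) ((2 ^ (k + 1) : ℕ) : ℤ) F

theorem ck_sub (k : ℕ) :
    LRE (-((2 ^ (k + 1) : ℕ) : ℤ)) ((2 ^ (k + 1) : ℕ) : ℤ) (((2 ^ k : ℕ) : ℤ) + 1)
      ((2 ^ (k + 1) : ℕ) : ℤ) ⊆ annk k ∧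
    LRE (-((2 ^ (k + 1) : ℕ) : ℤ)) ((2 ^ (k + 1) : ℕ) : ℤ) (-((2 ^ (k + 1) : ℕ) : ℤ))
      (-(((2 ^ k : ℕ) : ℤ) + 1)) ⊆ annk k ∧
    TBE (((2 ^ k : ℕ) : ℤ) + 1) ((2 ^ (k + 1) : ℕ) : ℤ) (-((2 ^ (k + 1) : ℕ) : ℤ))
      ((2 ^ (k + 1) : ℕ) : ℤ) ⊆ annk k ∧
    TBE (-((2 ^ (k + 1) : ℕ) : ℤ)) (-(((2 ^ k : ℕ) : ℤ) + 1)) (-((2 ^ (k + 1) : ℕ) : ℤ))
      ((2 ^ (k + 1) : ℕ) : ℤ) ⊆ annk k := by
  have e6 : (1 : ℕ) ≤ 2 ^ k := Nat.one_le_two_pow
  have e1 : (2 ^ (k + 1) : ℕ) = 2 * 2 ^ k := p2s k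
  unfold annk annE
  obtain ⟨m, hm⟩ : ∃ m : ℕ, m = 2 ^ k := ⟨_, rfl⟩
  obtain ⟨m1, hm1⟩ : ∃ m : ℕ, m = 2 ^ (k + 1) := ⟨_, rfl⟩
  rw [← hm, ← hm1] at e1
  rw [← hm] at e6
  rw [← hm, ← hm1]
  refine ⟨?_, ?_, ?_, ?_⟩
  · rintro ⟨x, y, _ | _⟩ h8
    · rw [mem_LRE_false] at h8
      rw [Finset.mem_sdiff, mem_boxE_false, mem_boxE_false]
      omega
    · rw [mem_LRE_true] at h8
      rw [Finset.mem_sdiff, mem_boxE_true, mem_boxE_true]
      omega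
  · rintro ⟨x, y, _ | _⟩ h8
    · rw [mem_LRE_false] at h8
      rw [Finset.mem_sdiff, mem_boxE_false, mem_boxE_false]
      omega
    · rw [mem_LRE_true] at h8
      rw [Finset.mem_sdiff, mem_boxE_true, mem_boxE_true]
      omega
  · rintro ⟨x, y, _ | _⟩ h8
    · rw [mem_TBE_false] at h8
      rw [Finset.mem_sdiff, mem_boxE_false, mem_boxE_false]
      omega
    · rw [mem_TBE_true] at h8
      rw [Finset.mem_sdiff, mem_boxE_true, mem_boxE_true]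
      omega
  · rintro ⟨x, y, _ | _⟩ h8
    · rw [mem_TBE_false] at h8
      rw [Finset.mem_sdiff, mem_boxE_false, mem_boxE_false]
      omega
    · rw [mem_TBE_true] at h8
      rw [Finset.mem_sdiff, mem_boxE_true, mem_boxE_true]
      omega

theorem ck_local (k : ℕ) {S : Finset Edg} (hS : annk k ⊆ S) (F : Finset Edg) :
    Ck k F ↔ Ck k (F ∩ S) := by
  obtain ⟨h1, h2, h3, h4⟩ := ck_sub k
  unfold Ck Circ
  rw [LRc_local (F := F) (h1.trans hS), LRc_local (F := F) (h2.trans hS),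
    TBc_local (F := F) (h3.trans hS), TBc_local (F := F) (h4.trans hS)]

theorem ck_pr : ∃ c : ℝ, 0 < c ∧ c ≤ 1 ∧ ∀ k : ℕ, 1 ≤ k → ∀ (P : Edg → ℝ), Ok P →
    (∀ e ∈ annk k, 1/2 ≤ P e) → ∀ S : Finset Edg, boxE (2 ^ (k + 1)) ⊆ S → c ≤ Pr P S (Ck k) := by
  obtain ⟨c, C, hc, hC, hr⟩ := rect_all 8 (by norm_num)
  refine ⟨Real.exp (-C) ^ 4, by positivity, ?_, ?_⟩
  · refine pow_le_one₀ (Real.exp_pos _).le ?_
    rw [Real.exp_le_one_iff]; linarith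
  intro k hk P hP h S hS
  have hann : annk k ⊆ S := (annk_sub (Nat.lt_succ_self k)).trans hS
  have g1 := pr_ge_hom (A := Ck k) hP (q := 1/2) (by norm_num) (by norm_num)
    (T := annk k) (S := S) hann (fun F => ck_local k (Finset.Subset.refl _) F)
    (fun F G hFG _ hF => Circ.mono hFG hF) h
  refine le_trans ?_ g1
  have e6 : (2 : ℕ) ≤ 2 ^ k := by
    calc (2:ℕ) = 2 ^ 1 := rfl
      _ ≤ 2 ^ k := pow2_mono hk
  have e1 : (2 ^ (k + 1) : ℕ) = 2 * 2 ^ k := p2s k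
  have g2 := pr_Circ (q := 1/2) (by norm_num) (by norm_num) (R1 := ((2 ^ k : ℕ) : ℤ) + 1)
    (R2 := ((2 ^ (k + 1) : ℕ) : ℤ)) (by positivity) (by omega) (S := S) hS
  refine le_trans ?_ g2
  have e2 : 2 * ((2 ^ (k + 1) : ℕ) : ℤ) = ((2 * 2 ^ (k + 1) : ℕ) : ℤ) := by push_cast; ring
  have e3 : ((2 ^ (k + 1) : ℕ) : ℤ) - (((2 ^ k : ℕ) : ℤ) + 1) = ((2 ^ k - 1 : ℕ) : ℤ) := by
    rw [Nat.cast_sub Nat.one_le_two_pow]
    push_cast; rw [pow_succ 2 k]; ring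
  rw [e2, e3]
  have g3 := hr 0 (by norm_num) (2 * 2 ^ (k + 1)) (2 ^ k - 1) (by omega) (by omega) (by omega)
    (by omega)
  rw [add_zero, gg_of_nonneg le_rfl] at g3
  unfold ph at g3
  rw [Real.zero_rpow (by norm_num), mul_zero, mul_zero, neg_zero, Real.exp_zero, mul_one] at g3
  exact pow_le_pow_left₀ (Real.exp_pos _).le g3 4

theorem circ_fin : ∃ c : ℝ, 0 < c ∧ c ≤ 1 ∧ ∀ i j : ℕ, 1 ≤ i → i ≤ j → ∀ (P : Edg → ℝ), Ok P →
    (∀ k, i ≤ k → k < j → ∀ e ∈ annk k, 1/2 ≤ P e) → ∀ U : Finset Edg, boxE (2 ^ j) ⊆ U →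
      Pr P U (fun F => ∀ k, i ≤ k → k < j → ¬ Ck k F) ≤ (1 - c) ^ (j - i) := by
  obtain ⟨c, hc, hc1, hb⟩ := ck_pr
  refine ⟨c, hc, hc1, ?_⟩
  intro i j hi hij P hP
  induction j, hij using Nat.le_induction with
  | base =>
    intro _ U _
    rw [Nat.sub_self, pow_zero]
    exact Pr_le_one hP _ _
  | succ j hij ih =>
    intro ht U hU
    have hU' : boxE (2 ^ j) ⊆ U := (boxE_mono (pow2_mono (Nat.le_succ j))).trans hU
    have i1 := ih (fun k h1 h2 => ht k h1 (by omega)) U hU'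
    have hann : annk j ⊆ U := (annk_sub (Nat.lt_succ_self j)).trans hU
    have e1 : Pr P U (fun F => ∀ k, i ≤ k → k < j + 1 → ¬ Ck k F) =
        Pr P U (fun F => (∀ k, i ≤ k → k < j → ¬ Ck k F) ∧ ¬ Ck j F) := by
      apply Pr_congr
      intro F _
      constructor
      · intro h
        exact ⟨fun k hk hk2 => h k hk (by omega), h j hij (by omega)⟩
      · rintro ⟨h, h'⟩ k hk hk2
        rcases Nat.lt_or_ge k j with hlt | hge
        · exact h k hk hlt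
        · have : k = j := by omega
          rw [this]; exact h'
    have i2 := Pr_indep (p := P) (A := fun F => ∀ k, i ≤ k → k < j → ¬ Ck k F)
      (B := fun F => ¬ Ck j F) hU' hann (Finset.disjoint_sdiff)
      (fun F _ => forall_congr' fun k => forall_congr' fun _ => forall_congr' fun hk => not_congr
        (ck_local k (annk_sub hk) F))
      (fun F _ => not_congr (ck_local j (Finset.Subset.refl _) F))
    rw [e1, i2, Pr_not]
    have b1 := hb j (by omega) P hP (ht j hij (by omega)) U hU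
    have e3 : j + 1 - i = (j - i) + 1 := by omega
    rw [e3, pow_succ]
    have b2 := Pr_le_one hP U (Ck j)
    exact mul_le_mul i1 (by linarith) (by linarith) (pow_nonneg (by linarith) _)

end Q292.Lam
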