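import Pool.Agent.Q292.Lam.Fin

/-!
Crossings of dyadic annuli: one scale.
-/

set_option autoImplicit false

namespace Q292.Lam

open Finset H974 Pool.Agent.W424.NC

/-- the decay factor -/
noncomputable def ph (c : ℝ) (w : ℝ) (s : ℝ) : ℝ := Real.exp (-(c * (w * s ^ (4/3 : ℝ))))

theorem ph_pos (c : ℝ) (k : ℝ) (s : ℝ) : 0 < ph c k s := Real.exp_pos _

/-- The cost of a crossing of a rectangle of size `w` at the parameter `1/2 + t`. -/
noncomputable def gg (a : ℝ) (w : ℝ) (t : ℝ) : ℝ :=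
  if 0 ≤ t then Real.exp (-(a * (w * t ^ (4/3 : ℝ)))) else 1 + w * (-t) ^ (4/3 : ℝ)

theorem gg_of_nonneg {a w t : ℝ} (h : 0 ≤ t) : gg a w t = ph a w t := by
  unfold gg ph; rw [if_pos h]

theorem gg_of_neg {a w t : ℝ} (h : t < 0) : gg a w t = 1 + w * (-t) ^ (4/3 : ℝ) := by
  unfold gg; rw [if_neg (not_le.2 h)]

theorem gg_pos {a w t : ℝ} (hw : 0 ≤ w) : 0 < gg a w t := by
  rcases le_or_gt 0 t with h | h
  · rw [gg_of_nonneg h]; exact ph_pos _ _ _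
  · rw [gg_of_neg h]
    have h2 : 0 ≤ (-t) ^ (4/3 : ℝ) := Real.rpow_nonneg (by linarith) _
    have := mul_nonneg hw h2
    linarith

theorem gg_anti_c {a b : ℝ} (h : a ≤ b) {w t : ℝ} (hw : 0 ≤ w) : gg b w t ≤ gg a w t := by
  rcases le_or_gt 0 t with ht | ht
  · rw [gg_of_nonneg ht, gg_of_nonneg ht]
    unfold ph
    apply Real.exp_le_exp.2
    have h2 : 0 ≤ w * t ^ (4/3 : ℝ) := mul_nonneg hw (Real.rpow_nonneg ht _)
    nlinarith
  · rw [gg_of_neg ht, gg_of_neg ht]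

/-- halving the size -/
theorem gg_half {a : ℝ} {w t : ℝ} (hw : 0 ≤ w) : gg a w t ≤ gg (a / 2) (2 * w) t := by
  rcases le_or_gt 0 t with ht | ht
  · rw [gg_of_nonneg ht, gg_of_nonneg ht]
    unfold ph
    apply le_of_eq
    congr 1
    ring
  · rw [gg_of_neg ht, gg_of_neg ht]
    have h2 : 0 ≤ w * (-t) ^ (4/3 : ℝ) := mul_nonneg hw (Real.rpow_nonneg (by linarith) _)
    linarith

theorem gg_big {a : ℝ} (ha : 0 ≤ a) {w v t : ℝ} (h1 : w ≤ v) (h2 : v ≤ 4 * w) :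
    gg a v t ≤ 4 * gg a w t := by
  rcases le_or_gt 0 t with ht | ht
  · rw [gg_of_nonneg ht, gg_of_nonneg ht]
    have h3 : ph a v t ≤ ph a w t := by
      unfold ph
      apply Real.exp_le_exp.2
      have h4 : w * t ^ (4/3 : ℝ) ≤ v * t ^ (4/3 : ℝ) :=
        mul_le_mul_of_nonneg_right h1 (Real.rpow_nonneg ht _)
      nlinarith
    have := ph_pos a w t
    linarith
  · rw [gg_of_neg ht, gg_of_neg ht]
    have h3 : v * (-t) ^ (4/3 : ℝ) ≤ (4 * w) * (-t) ^ (4/3 : ℝ) :=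
      mul_le_mul_of_nonneg_right h2 (Real.rpow_nonneg (by linarith) _)
    linarith

theorem gg_min {a : ℝ} {w : ℝ} (hw : 0 ≤ w) (s t : ℝ) :
    gg a w (min s t) ≤ gg a w s + gg a w t := by
  have h1 := gg_pos (a := a) (t := s) hw
  have h2 := gg_pos (a := a) (t := t) hw
  rcases min_cases s t with ⟨h, -⟩ | ⟨h, -⟩
  · rw [h]; linarith
  · rw [h]; linarith

/-- Blocking one annulus. -/
theorem blk_one : ∃ c C : ℝ, 0 < c ∧ 0 < C ∧ ∀ (k : ℕ) (t : ℝ), 0 ≤ t → t ≤ 1/4 →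
    ∀ P : Edg → ℝ, Ok P → (∀ e ∈ annE (2 ^ k) (2 ^ (k + 1)), P e ≤ 1/2 + t) →
    ∀ S : Finset Edg, annE (2 ^ k) (2 ^ (k + 1)) ⊆ S →
      c * ph C (2 ^ k) t ≤ Pr P S (Blk ((2 ^ k : ℕ) : ℤ) ((2 ^ (k + 1) : ℕ) : ℤ)) := by
  obtain ⟨c, C, hc, hC, h⟩ := win_lower_dual 4 (by norm_num)
  refine ⟨c ^ 4, 4 * C, by positivity, by positivity, ?_⟩
  intro k t ht0 ht1 P hP hPe S hS
  have hq0 : (0:ℝ) ≤ 1/2 + t := by linarith
  have hq1 : 1/2 + t ≤ 1 := by linarith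
  have b := bk_ge hP hq0 hq1 (p2lt k) hPe hS
  refine le_trans ?_ b
  have h1 := h (1/2 - t) (by linarith) (by linarith) (2 ^ k) (2 ^ (k + 2)) (Nat.one_le_two_pow)
    (Nat.one_le_two_pow) (by rw [pow_add]; omega) (by rw [pow_add]; omega)
  have e1 : 1 - (1/2 - t) = 1/2 + t := by ring
  have e2 : 1/2 - (1/2 - t) = t := by ring
  rw [e1, e2] at h1
  have e3 : sk (1/2 + t) (2 ^ k) (2 ^ (k + 1)) =
      hh (1/2 + t) ((2 ^ k : ℕ) : ℤ) ((2 ^ (k + 2) : ℕ) : ℤ) := by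
    unfold sk
    congr 1
    · push_cast; rw [pow_succ]; ring
    · push_cast; rw [pow_succ, pow_add]; ring
  rw [e3]
  have h3 : 0 ≤ c * Real.exp (-(C * (((2 ^ k : ℕ) : ℝ) * t ^ (4/3 : ℝ)))) := by positivity
  have h4 := pow_le_pow_left₀ h3 h1 4
  refine le_trans (le_of_eq ?_) h4
  rw [mul_pow, ← Real.exp_nat_mul]
  unfold ph
  congr 2
  push_cast
  ring

/-- Crossing one annulus at a parameter below `1/2`. -/
theorem nblk_one : ∃ c C : ℝ, 0 < c ∧ 1 ≤ C ∧ ∀ (k : ℕ) (s : ℝ), 0 ≤ s → s ≤ 1/4 →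
    ∀ P : Edg → ℝ, Ok P → (∀ e ∈ annE (2 ^ k) (2 ^ (k + 1)), P e ≤ 1/2 - s) →
    ∀ S : Finset Edg, annE (2 ^ k) (2 ^ (k + 1)) ⊆ S →
      Pr P S (fun F => ¬ Blk ((2 ^ k : ℕ) : ℤ) ((2 ^ (k + 1) : ℕ) : ℤ) F) ≤
        C * Real.exp (-(c * (2 ^ k * s ^ (4/3 : ℝ)))) := by
  obtain ⟨c, C, hc, hC, h⟩ := win_upper 4 (by norm_num)
  refine ⟨c, max 1 (4 * C), hc, le_max_left _ _, ?_⟩
  intro k s hs0 hs1 P hP hPe S hS
  have hq0 : (0:ℝ) ≤ 1/2 - s := by linarith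
  have hq1 : 1/2 - s ≤ 1 := by linarith
  have b := nbk_le hP hq0 hq1 (p2lt k) hPe hS
  refine le_trans b ?_
  have h1 := h (1/2 - s) hq0 (by linarith) (2 ^ k) (2 ^ (k + 2)) (Nat.one_le_two_pow)
    (by rw [pow_add]; omega) (by rw [pow_add]; omega)
  have e2 : 1/2 - (1/2 - s) = s := by ring
  rw [e2] at h1
  have e3 : sk (1/2 - s) (2 ^ k) (2 ^ (k + 1)) =
      hh (1/2 - s) ((2 ^ k : ℕ) : ℤ) ((2 ^ (k + 2) : ℕ) : ℤ) := by
    unfold sk
    congr 1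
    · push_cast; rw [pow_succ]; ring
    · push_cast; rw [pow_succ, pow_add]; ring
  rw [e3]
  push_cast at h1 ⊢
  have h2 : 0 < Real.exp (-(c * (2 ^ k * s ^ (4/3 : ℝ)))) := Real.exp_pos _
  have h3 : 4 * C * Real.exp (-(c * (2 ^ k * s ^ (4/3 : ℝ)))) ≤
      max 1 (4 * C) * Real.exp (-(c * (2 ^ k * s ^ (4/3 : ℝ)))) :=
    mul_le_mul_of_nonneg_right (le_max_right _ _) h2.le
  linarith

/-- The crossing of one annulus, all parameters. -/
theorem blk_all : ∃ c C : ℝ, 0 < c ∧ 0 < C ∧ ∀ (k : ℕ) (t : ℝ), |t| ≤ 1/4 →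
    ∀ P : Edg → ℝ, Ok P → (∀ e ∈ annE (2 ^ k) (2 ^ (k + 1)), P e ≤ 1/2 + t) →
    ∀ S : Finset Edg, annE (2 ^ k) (2 ^ (k + 1)) ⊆ S →
      Pr P S (fun F => ¬ Blk ((2 ^ k : ℕ) : ℤ) ((2 ^ (k + 1) : ℕ) : ℤ) F) ≤
        Real.exp (-(c * gg C (2 ^ k) t)) := by
  obtain ⟨c1, C1, hc1, hC1, h1⟩ := blk_one
  obtain ⟨c2, C2, hc2, hC2, h2⟩ := nblk_one
  obtain ⟨L, hL⟩ : ∃ L : ℝ, L = Real.log C2 + 1 := ⟨_, rfl⟩
  have hlog : 0 ≤ Real.log C2 := Real.log_nonneg hC2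
  have hL1 : 1 ≤ L := by rw [hL]; linarith
  obtain ⟨θ, hθ⟩ : ∃ θ : ℝ, θ = min (1/2) (c1 / (4 * L)) := ⟨_, rfl⟩
  have hθ0 : 0 < θ := by rw [hθ]; exact lt_min (by norm_num) (by positivity)
  have hθ1 : θ ≤ 1/2 := by rw [hθ]; exact min_le_left _ _
  have hθ2 : θ * L ≤ c1 / 4 := by
    have : θ ≤ c1 / (4 * L) := by rw [hθ]; exact min_le_right _ _
    calc θ * L ≤ c1 / (4 * L) * L := mul_le_mul_of_nonneg_right this (by linarith)
      _ = c1 / 4 := by field_simp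
  refine ⟨min c1 (min (c1 / 4) (θ * c2)), C1, ?_, hC1, ?_⟩
  · exact lt_min hc1 (lt_min (by positivity) (by positivity))
  intro k t ht P hP hPe S hS
  obtain ⟨c, hc⟩ : ∃ c : ℝ, c = min c1 (min (c1 / 4) (θ * c2)) := ⟨_, rfl⟩
  rw [← hc]
  have k1 : c ≤ c1 := by rw [hc]; exact min_le_left _ _
  have k2 : c ≤ c1 / 4 := by rw [hc]; exact (min_le_right _ _).trans (min_le_left _ _)
  have k3 : c ≤ θ * c2 := by rw [hc]; exact (min_le_right _ _).trans (min_le_right _ _)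
  rw [abs_le] at ht
  rcases le_or_gt 0 t with h0 | h0
  · have b1 := h1 k t h0 ht.2 P hP hPe S hS
    rw [Pr_not, gg_of_nonneg h0]
    have b2 := Real.add_one_le_exp (-(c * ph C1 (2 ^ k) t))
    have b3 : c * ph C1 (2 ^ k) t ≤ c1 * ph C1 (2 ^ k) t :=
      mul_le_mul_of_nonneg_right k1 (ph_pos _ _ _).le
    linarith
  · have b1 := h1 k 0 le_rfl (by norm_num) P hP (fun e he => by have := hPe e he; linarith) S hS
    have b0 : ph C1 (2 ^ k) 0 = 1 := by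
      unfold ph
      rw [Real.zero_rpow (by norm_num), mul_zero, mul_zero, neg_zero, Real.exp_zero]
    rw [b0, mul_one] at b1
    have b2 := h2 k (-t) (by linarith) (by linarith) P hP
      (fun e he => by have := hPe e he; linarith) S hS
    obtain ⟨x, hx⟩ : ∃ x : ℝ, x = 2 ^ k * (-t) ^ (4/3 : ℝ) := ⟨_, rfl⟩
    have hx0 : 0 ≤ x := by
      rw [hx]; exact mul_nonneg (by positivity) (Real.rpow_nonneg (by linarith) _)
    rw [gg_of_neg h0, ← hx]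
    rw [← hx] at b2
    obtain ⟨y, hy⟩ : ∃ y : ℝ, y = Pr P S (fun F =>
      ¬ Blk ((2 ^ k : ℕ) : ℤ) ((2 ^ (k + 1) : ℕ) : ℤ) F) := ⟨_, rfl⟩
    have hy0 : 0 ≤ y := by rw [hy]; exact Pr_nonneg hP _ _
    have b3 : y ≤ 1 - c1 := by rw [hy, Pr_not]; linarith
    rw [← hy] at b2 ⊢
    rcases hy0.eq_or_lt with hy1 | hy1
    · rw [← hy1]; exact (Real.exp_pos _).le
    have l1 : Real.log y ≤ -c1 := by
      have := Real.log_le_sub_one_of_pos hy1; linarith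
    have l2 : Real.log y ≤ Real.log C2 - c2 * x := by
      have h3 := Real.log_le_log hy1 b2
      rw [Real.log_mul (by linarith) (Real.exp_pos _).ne', Real.log_exp] at h3
      linarith
    have l3 : Real.log y ≤ -(c * (1 + x)) := by
      have m1 : (1 - θ) * Real.log y ≤ (1 - θ) * (-c1) :=
        mul_le_mul_of_nonneg_left l1 (by linarith)
      have m2 : θ * Real.log y ≤ θ * (Real.log C2 - c2 * x) :=
        mul_le_mul_of_nonneg_left l2 hθ0.le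
      have m3 : θ * Real.log C2 ≤ c1 / 4 := by
        have : θ * Real.log C2 ≤ θ * L := mul_le_mul_of_nonneg_left (by linarith) hθ0.le
        linarith
      have m4 : c * x ≤ θ * c2 * x := mul_le_mul_of_nonneg_right k3 hx0
      nlinarith
    calc y = Real.exp (Real.log y) := (Real.exp_log hy1).symm
      _ ≤ _ := Real.exp_le_exp.2 l3

/-- Crossing one rectangle, above `1/2`. -/
theorem rect_one (K : ℕ) (hK : 1 ≤ K) : ∃ c C : ℝ, 0 < c ∧ 0 < C ∧ ∀ s : ℝ, 0 ≤ s → s ≤ 1/4 →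
    ∀ w h : ℕ, 1 ≤ w → 1 ≤ h → w ≤ K * h → h ≤ K * w →
      Real.exp (-(C * Real.exp (-(c * (w * s ^ (4/3 : ℝ)))))) ≤ hh (1/2 + s) w h := by
  obtain ⟨c, C, hc, hC, h1⟩ := win_upper_dual K hK
  obtain ⟨c', C', hc', hC', h2⟩ := win_lower K hK
  obtain ⟨L, hL⟩ : ∃ L : ℝ, L = max 1 (Real.log (1 / c')) := ⟨_, rfl⟩
  have hL1 : 1 ≤ L := by rw [hL]; exact le_max_left _ _
  have hL2 : Real.log (1 / c') ≤ L := by rw [hL]; exact le_max_right _ _
  refine ⟨c, 2 * C * L, hc, by positivity, ?_⟩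
  intro s hs0 hs1 w h hw hh1 hwh hhw
  obtain ⟨x, hx⟩ : ∃ x : ℝ, x = Real.exp (-(c * (w * s ^ (4/3 : ℝ)))) := ⟨_, rfl⟩
  have hx0 : 0 < x := by rw [hx]; exact Real.exp_pos _
  rw [← hx]
  by_cases hcase : C * x ≤ 1/2
  · have a1 := h1 (1/2 - s) (by linarith) (by linarith) w h hw hh1 hwh hhw
    have e1 : 1 - (1/2 - s) = 1/2 + s := by ring
    have e2 : 1/2 - (1/2 - s) = s := by ring
    rw [e1, e2, ← hx] at a1
    have a2 : 1 - C * x ≤ hh (1/2 + s) w h := by linarith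
    refine le_trans ?_ a2
    have hCx : 0 < C * x := by positivity
    have b1 : Real.exp (-(2 * (C * x))) ≤ 1 - C * x := by
      -- exp (-2y) ≤ 1 / (1 + 2 y) ≤ 1 - y for 0 ≤ y ≤ 1/2
      have b2 : 1 + 2 * (C * x) ≤ Real.exp (2 * (C * x)) := by
        have := Real.add_one_le_exp (2 * (C * x)); linarith
      rw [Real.exp_neg]
      have b3 : (Real.exp (2 * (C * x)))⁻¹ ≤ (1 + 2 * (C * x))⁻¹ :=
        inv_anti₀ (by positivity) b2
      refine b3.trans ?_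
      rw [inv_le_iff_one_le_mul₀ (by positivity)]
      nlinarith
    refine le_trans ?_ b1
    apply Real.exp_le_exp.2
    have : C * x ≤ C * x * L := by nlinarith
    nlinarith
  · push Not at hcase
    have a1 := h2 (1/2) (by norm_num) le_rfl w h hw hh1 hwh hhw
    have e1 : (1/2 : ℝ) - 1/2 = 0 := by norm_num
    rw [e1, Real.zero_rpow (by norm_num), mul_zero, mul_zero, neg_zero, Real.exp_zero, mul_one] at a1
    have a2 : hh (1/2) w h ≤ hh (1/2 + s) w h :=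
      hh_mono_param (by norm_num) (by linarith) (by linarith) _ _
    refine le_trans ?_ (a1.trans a2)
    have b1 : Real.exp (-L) ≤ c' := by
      have b2 : -L ≤ Real.log c' := by
        rw [one_div, Real.log_inv] at hL2
        linarith
      calc Real.exp (-L) ≤ Real.exp (Real.log c') := Real.exp_le_exp.2 b2
        _ = c' := Real.exp_log hc'
    refine le_trans ?_ b1
    apply Real.exp_le_exp.2
    nlinarith

/-- Crossing one rectangle, all parameters. -/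
theorem rect_all (K : ℕ) (hK : 1 ≤ K) : ∃ c C : ℝ, 0 < c ∧ 0 < C ∧ ∀ t : ℝ, |t| ≤ 1/4 →
    ∀ w h : ℕ, 1 ≤ w → 1 ≤ h → w ≤ K * h → h ≤ K * w →
      Real.exp (-(C * gg c w t)) ≤ hh (1/2 + t) w h := by
  obtain ⟨c, C, hc, hC, h1⟩ := rect_one K hK
  obtain ⟨c', C', hc', hC', h2⟩ := win_lower K hK
  obtain ⟨L, hL⟩ : ∃ L : ℝ, L = max 0 (Real.log (1 / c')) := ⟨_, rfl⟩
  have hL1 : 0 ≤ L := by rw [hL]; exact le_max_left _ _
  have hL2 : Real.log (1 / c') ≤ L := by rw [hL]; exact le_max_right _ _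
  refine ⟨c, C + (L + C'), hc, by positivity, ?_⟩
  intro t ht w h hw hh1 hwh hhw
  rw [abs_le] at ht
  rcases le_or_gt 0 t with h0 | h0
  · refine le_trans ?_ (h1 t h0 ht.2 w h hw hh1 hwh hhw)
    rw [gg_of_nonneg h0]
    apply Real.exp_le_exp.2
    have := ph_pos c w t
    unfold ph at this ⊢
    nlinarith
  · have a1 := h2 (1/2 + t) (by linarith) (by linarith) w h hw hh1 hwh hhw
    refine le_trans ?_ a1
    have e1 : 1/2 - (1/2 + t) = -t := by ring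
    rw [e1, gg_of_neg h0]
    obtain ⟨x, hx⟩ : ∃ x : ℝ, x = (w : ℝ) * (-t) ^ (4/3 : ℝ) := ⟨_, rfl⟩
    have hx0 : 0 ≤ x := by
      rw [hx]; exact mul_nonneg (by positivity) (Real.rpow_nonneg (by linarith) _)
    rw [← hx]
    have b1 : Real.exp (-L) ≤ c' := by
      have b2 : -L ≤ Real.log c' := by
        rw [one_div, Real.log_inv] at hL2
        linarith
      calc Real.exp (-L) ≤ Real.exp (Real.log c') := Real.exp_le_exp.2 b2
        _ = c' := Real.exp_log hc'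
    have b2 : Real.exp (-L) * Real.exp (-(C' * x)) ≤ c' * Real.exp (-(C' * x)) :=
      mul_le_mul_of_nonneg_right b1 (Real.exp_pos _).le
    refine le_trans ?_ b2
    rw [← Real.exp_add]
    apply Real.exp_le_exp.2
    nlinarith [mul_nonneg hL1 hx0, mul_nonneg hC.le hx0]

end Q292.Lam
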