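import Pool.Agent.W424.NC.Win

/-!
Crossings of dyadic annuli in an inhomogeneous environment: estimates in finite volume.
-/

set_option autoImplicit false

namespace Q292.Lam

open Finset H974

/-- The probability depends only on the parameters of the edges of `S`. -/
theorem Pr_par {E : Type*} [DecidableEq E] {p q : E → ℝ} {S : Finset E}
    (h : ∀ e ∈ S, p e = q e) (A : Finset E → Prop) : Pr p S A = Pr q S A := by
  unfold Pr Ex
  refine Finset.sum_congr rfl fun F hF => ?_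
  rw [Finset.mem_powerset] at hF
  have h2 : ∏ e ∈ F, p e = ∏ e ∈ F, q e := Finset.prod_congr rfl (fun e he => h e (hF he))
  have h3 : ∏ e ∈ S \ F, (1 - p e) = ∏ e ∈ S \ F, (1 - q e) :=
    Finset.prod_congr rfl (fun e he => by rw [h e (Finset.sdiff_subset he)])
  rw [h2, h3]

theorem pr_le_hom {P : Edg → ℝ} (hP : Ok P) {q : ℝ} (h0 : 0 ≤ q) (h1 : q ≤ 1) {T S : Finset Edg}
    (hTS : T ⊆ S) {A : Finset Edg → Prop} (hl : ∀ F, A F ↔ A (F ∩ T)) (hA : IncrE T A)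
    (h : ∀ e ∈ T, P e ≤ q) : Pr P S A ≤ Pr (fun _ => q) S A := by
  classical
  rw [Pr_local hTS (fun F _ => hl F), Pr_local hTS (fun F _ => hl F)]
  obtain ⟨P', hP'⟩ : ∃ P' : Edg → ℝ, P' = fun e => if e ∈ T then P e else q := ⟨_, rfl⟩
  have e1 : Pr P T A = Pr P' T A := Pr_par (fun e he => by rw [hP']; simp only [if_pos he]) A
  rw [e1]
  refine Pr_mono_param ?_ (okq h0 h1) ?_ hA
  · intro e
    rw [hP']
    by_cases he : e ∈ T
    · simp only [if_pos he]; exact hP e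
    · simp only [if_neg he]; exact ⟨h0, h1⟩
  · intro e
    rw [hP']
    by_cases he : e ∈ T
    · simp only [if_pos he]; exact h e he
    · simp only [if_neg he]; exact le_rfl

theorem pr_ge_hom {P : Edg → ℝ} (hP : Ok P) {q : ℝ} (h0 : 0 ≤ q) (h1 : q ≤ 1) {T S : Finset Edg}
    (hTS : T ⊆ S) {A : Finset Edg → Prop} (hl : ∀ F, A F ↔ A (F ∩ T)) (hA : IncrE T A)
    (h : ∀ e ∈ T, q ≤ P e) : Pr (fun _ => q) S A ≤ Pr P S A := by
  classical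
  rw [Pr_local hTS (fun F _ => hl F), Pr_local hTS (fun F _ => hl F)]
  obtain ⟨P', hP'⟩ : ∃ P' : Edg → ℝ, P' = fun e => if e ∈ T then P e else q := ⟨_, rfl⟩
  have e1 : Pr P T A = Pr P' T A := Pr_par (fun e he => by rw [hP']; simp only [if_pos he]) A
  rw [e1]
  refine Pr_mono_param (okq h0 h1) ?_ ?_ hA
  · intro e
    rw [hP']
    by_cases he : e ∈ T
    · simp only [if_pos he]; exact hP e
    · simp only [if_neg he]; exact ⟨h0, h1⟩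
  · intro e
    rw [hP']
    by_cases he : e ∈ T
    · simp only [if_pos he]; exact h e he
    · simp only [if_neg he]; exact le_rfl

theorem p2lt (k : ℕ) : 2 ^ k < 2 ^ (k + 1) := Nat.pow_lt_pow_right (by norm_num) (by omega)

theorem p2s (k : ℕ) : 2 ^ (k + 1) = 2 * 2 ^ k := by rw [pow_succ]; ring

theorem mem_boxE_true {n : ℕ} {x y : ℤ} :
    ((x, y, true) : Edg) ∈ boxE n ↔ -(n : ℤ) ≤ x ∧ x < n ∧ -(n : ℤ) ≤ y ∧ y ≤ n := by
  unfold boxE; rw [mem_RE_true]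

theorem mem_boxE_false {n : ℕ} {x y : ℤ} :
    ((x, y, false) : Edg) ∈ boxE n ↔ -(n : ℤ) ≤ x ∧ x ≤ n ∧ -(n : ℤ) ≤ y ∧ y < n := by
  unfold boxE; rw [mem_RE_false]

theorem boxE_mono {n m : ℕ} (h : n ≤ m) : boxE n ⊆ boxE m := by
  have h' : (n : ℤ) ≤ m := by exact_mod_cast h
  rintro ⟨x, y, _ | _⟩ he
  · rw [mem_boxE_false] at he ⊢; omega
  · rw [mem_boxE_true] at he ⊢; omega

/-- A path from the inner box to the complement of the outer box crosses the annulus. -/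
theorem not_blk {F : Finset Edg} {R1 R2 : ℤ} (h1 : 0 ≤ R1) (h2 : R1 < R2) {u v : Vtx}
    (hu : inR (-R1) R1 (-R1) R1 u)
    (h : Reach (↑F : Set Edg) u v) (hv : v.1 ≤ -R2 ∨ R2 ≤ v.1 ∨ v.2 ≤ -R2 ∨ R2 ≤ v.2) :
    ¬ Blk R1 R2 F := by
  obtain ⟨⟨u1, u2⟩, u3, u4⟩ := hu
  obtain ⟨w, k1, k2, k3⟩ := first_exit (a := -R2) (b := R2) (c := -R2) (d := R2)
    (by unfold inR; omega) h hv
  rintro ⟨hb1, hb2⟩
  rcases k2 with k2 | k2 | k2 | k2
  · apply hb1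
    right
    obtain ⟨y1, y2, m1, m2, m3, -⟩ := sub_LR (a := -R2) (b := -R1) (c := -R2) (d := R2) (by omega)
      (by rintro x y ⟨-, h⟩ _ _; simp only [mem_coe, mem_RE_true] at h; omega)
      (by rintro x y ⟨-, h⟩ _ _; simp only [mem_coe, mem_RE_false] at h; omega)
      k3.symm k2.le u1
    exact ⟨y1, y2, m1, m2, m3.mono (by rintro e ⟨⟨h4, -⟩, h5⟩; exact ⟨h4, h5⟩)⟩
  · apply hb1
    left
    obtain ⟨y1, y2, m1, m2, m3, -⟩ := sub_LR (a := R1) (b := R2) (c := -R2) (d := R2) (by omega)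
      (by rintro x y ⟨-, h⟩ _ _; simp only [mem_coe, mem_RE_true] at h; omega)
      (by rintro x y ⟨-, h⟩ _ _; simp only [mem_coe, mem_RE_false] at h; omega)
      k3 u2 k2.ge
    exact ⟨y1, y2, m1, m2, m3.mono (by rintro e ⟨⟨h4, -⟩, h5⟩; exact ⟨h4, h5⟩)⟩
  · apply hb2
    right
    obtain ⟨y1, y2, m1, m2, m3, -⟩ := sub_TB (a := -R2) (b := R2) (c := -R2) (d := -R1) (by omega)
      (by rintro x y ⟨-, h⟩ _ _; simp only [mem_coe, mem_RE_false] at h; omega)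
      (by rintro x y ⟨-, h⟩ _ _; simp only [mem_coe, mem_RE_true] at h; omega)
      k3.symm k2.le u3
    exact ⟨y1, y2, m1, m2, m3.mono (by rintro e ⟨⟨h4, -⟩, h5⟩; exact ⟨h4, h5⟩)⟩
  · apply hb2
    left
    obtain ⟨y1, y2, m1, m2, m3, -⟩ := sub_TB (a := -R2) (b := R2) (c := R1) (d := R2) (by omega)
      (by rintro x y ⟨-, h⟩ _ _; simp only [mem_coe, mem_RE_false] at h; omega)
      (by rintro x y ⟨-, h⟩ _ _; simp only [mem_coe, mem_RE_true] at h; omega)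
      k3 u4 k2.ge
    exact ⟨y1, y2, m1, m2, m3.mono (by rintro e ⟨⟨h4, -⟩, h5⟩; exact ⟨h4, h5⟩)⟩

/-- crossing probability of one strip of the annulus -/
noncomputable def sk (q : ℝ) (n m : ℕ) : ℝ := hh q ((m : ℤ) - n) (2 * (m : ℤ))

theorem strip_pr (q : ℝ) {n m : ℕ} (hnm : n < m) {S : Finset Edg} (hS : annE n m ⊆ S) :
    Pr (fun _ => q) S (LRc (n : ℤ) m (-m) m) = sk q n m ∧
    Pr (fun _ => q) S (LRc (-(m : ℤ)) (-n) (-m) m) = sk q n m ∧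
    Pr (fun _ => q) S (TBc (-(m : ℤ)) m n m) = sk q n m ∧
    Pr (fun _ => q) S (TBc (-(m : ℤ)) m (-m) (-n)) = sk q n m := by
  obtain ⟨s1, s2, s3, s4⟩ := ann_sub hnm
  unfold sk
  refine ⟨?_, ?_, ?_, ?_⟩
  · rw [pr_LRc q (s1.trans hS)]; congr 1; ring
  · rw [pr_LRc q (s2.trans hS)]; congr 1 <;> ring
  · rw [pr_TBc q (s3.trans hS)]; congr 1; ring
  · rw [pr_TBc q (s4.trans hS)]; congr 1 <;> ring

/-- the blocking probability of the annulus is at least the fourth power of that of a strip -/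
theorem bk_ge {P : Edg → ℝ} (hP : Ok P) {q : ℝ} (h0 : 0 ≤ q) (h1 : q ≤ 1) {n m : ℕ} (hnm : n < m)
    (h : ∀ e ∈ annE n m, P e ≤ q) {S : Finset Edg} (hS : annE n m ⊆ S) :
    (1 - sk q n m) ^ 4 ≤ Pr P S (Blk (n : ℤ) m) := by
  obtain ⟨s1, s2, s3, s4⟩ := ann_sub hnm
  obtain ⟨e1, e2, e3, e4⟩ := strip_pr q hnm hS
  have hle : sk q n m ≤ 1 := hh_le_one h0 h1 _ _
  obtain ⟨v, hv⟩ : ∃ v : ℝ, v = 1 - sk q n m := ⟨_, rfl⟩
  have hv0 : 0 ≤ v := by rw [hv]; linarith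
  have f1 := pr_le_hom (A := LRc (n : ℤ) m (-m) m) hP h0 h1 (s1.trans hS) (fun F => LRc_local (Finset.Subset.refl _))
    (LRc_incr _ _ _ _ _) (fun e he => h e (s1 he))
  have f2 := pr_le_hom (A := LRc (-(m : ℤ)) (-n) (-m) m) hP h0 h1 (s2.trans hS) (fun F => LRc_local (Finset.Subset.refl _))
    (LRc_incr _ _ _ _ _) (fun e he => h e (s2 he))
  have f3 := pr_le_hom (A := TBc (-(m : ℤ)) m n m) hP h0 h1 (s3.trans hS) (fun F => TBc_local (Finset.Subset.refl _))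
    (TBc_incr _ _ _ _ _) (fun e he => h e (s3 he))
  have f4 := pr_le_hom (A := TBc (-(m : ℤ)) m (-m) (-n)) hP h0 h1 (s4.trans hS) (fun F => TBc_local (Finset.Subset.refl _))
    (TBc_incr _ _ _ _ _) (fun e he => h e (s4 he))
  rw [e1] at f1
  rw [e2] at f2
  rw [e3] at f3
  rw [e4] at f4
  rw [← hv]
  clear e1 e2 e3 e4 s1 s2 s3 s4 hS h
  obtain ⟨R1, hR1⟩ : ∃ R1 : ℤ, R1 = n := ⟨_, rfl⟩
  obtain ⟨R2, hR2⟩ : ∃ R2 : ℤ, R2 = m := ⟨_, rfl⟩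
  rw [← hR1, ← hR2] at f1 f2 f3 f4 ⊢
  have i1 := Pr_harris_dd hP (LRc_incr S R1 R2 (-R2) R2) (LRc_incr S (-R2) (-R1) (-R2) R2)
  have i2 := Pr_harris_dd hP (TBc_incr S (-R2) R2 R1 R2) (TBc_incr S (-R2) R2 (-R2) (-R1))
  have c1 : IncrE S (fun F => LRc R1 R2 (-R2) R2 F ∨ LRc (-R2) (-R1) (-R2) R2 F) :=
    fun F G hFG _ hF => hF.imp (LRc.mono hFG) (LRc.mono hFG)
  have c2 : IncrE S (fun F => TBc (-R2) R2 R1 R2 F ∨ TBc (-R2) R2 (-R2) (-R1) F) :=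
    fun F G hFG _ hF => hF.imp (TBc.mono hFG) (TBc.mono hFG)
  have i3 := Pr_harris_dd hP c1 c2
  rw [← Pr_not, ← Pr_not] at i3
  have j1 : Pr P S (fun F => ¬ (LRc R1 R2 (-R2) R2 F ∨
      LRc (-R2) (-R1) (-R2) R2 F)) = Pr P S (fun F => ¬ LRc R1 R2 (-R2) R2 F ∧
      ¬ LRc (-R2) (-R1) (-R2) R2 F) := Pr_congr (fun F _ => not_or)
  have j2 : Pr P S (fun F => ¬ (TBc (-R2) R2 R1 R2 F ∨
      TBc (-R2) R2 (-R2) (-R1) F)) = Pr P S (fun F => ¬ TBc (-R2) R2 R1 R2 F ∧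
      ¬ TBc (-R2) R2 (-R2) (-R1) F) := Pr_congr (fun F _ => not_or)
  rw [j1, j2] at i3
  have k1 : v * v ≤ Pr P S (fun F => ¬ LRc R1 R2 (-R2) R2 F ∧
      ¬ LRc (-R2) (-R1) (-R2) R2 F) := by
    refine le_trans (mul_le_mul ?_ ?_ hv0 ?_) i1
    · linarith
    · linarith
    · linarith
  have k2 : v * v ≤ Pr P S (fun F => ¬ TBc (-R2) R2 R1 R2 F ∧
      ¬ TBc (-R2) R2 (-R2) (-R1) F) := by
    refine le_trans (mul_le_mul ?_ ?_ hv0 ?_) i2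
    · linarith
    · linarith
    · linarith
  have k3 : (v * v) * (v * v) ≤ Pr P S (Blk R1 R2) := by
    refine le_trans (mul_le_mul k1 k2 (by positivity) (Pr_nonneg hP _ _)) i3
  calc v ^ 4 = (v * v) * (v * v) := by ring
    _ ≤ _ := k3

/-- the crossing probability of the annulus is at most four times that of a strip -/
theorem nbk_le {P : Edg → ℝ} (hP : Ok P) {q : ℝ} (h0 : 0 ≤ q) (h1 : q ≤ 1) {n m : ℕ} (hnm : n < m)
    (h : ∀ e ∈ annE n m, P e ≤ q) {S : Finset Edg} (hS : annE n m ⊆ S) :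
    Pr P S (fun F => ¬ Blk (n : ℤ) m F) ≤ 4 * sk q n m := by
  obtain ⟨s1, s2, s3, s4⟩ := ann_sub hnm
  obtain ⟨e1, e2, e3, e4⟩ := strip_pr q hnm hS
  have f1 := pr_le_hom (A := LRc (n : ℤ) m (-m) m) hP h0 h1 (s1.trans hS) (fun F => LRc_local (Finset.Subset.refl _))
    (LRc_incr _ _ _ _ _) (fun e he => h e (s1 he))
  have f2 := pr_le_hom (A := LRc (-(m : ℤ)) (-n) (-m) m) hP h0 h1 (s2.trans hS) (fun F => LRc_local (Finset.Subset.refl _))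
    (LRc_incr _ _ _ _ _) (fun e he => h e (s2 he))
  have f3 := pr_le_hom (A := TBc (-(m : ℤ)) m n m) hP h0 h1 (s3.trans hS) (fun F => TBc_local (Finset.Subset.refl _))
    (TBc_incr _ _ _ _ _) (fun e he => h e (s3 he))
  have f4 := pr_le_hom (A := TBc (-(m : ℤ)) m (-m) (-n)) hP h0 h1 (s4.trans hS) (fun F => TBc_local (Finset.Subset.refl _))
    (TBc_incr _ _ _ _ _) (fun e he => h e (s4 he))
  rw [e1] at f1
  rw [e2] at f2
  rw [e3] at f3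
  rw [e4] at f4
  obtain ⟨v, hv⟩ : ∃ v : ℝ, v = sk q n m := ⟨_, rfl⟩
  rw [← hv] at f1 f2 f3 f4 ⊢
  clear e1 e2 e3 e4 s1 s2 s3 s4 hS h hv
  obtain ⟨R1, hR1⟩ : ∃ R1 : ℤ, R1 = n := ⟨_, rfl⟩
  obtain ⟨R2, hR2⟩ : ∃ R2 : ℤ, R2 = m := ⟨_, rfl⟩
  rw [← hR1, ← hR2] at f1 f2 f3 f4 ⊢
  have hm : Pr P S (fun F => ¬ Blk R1 R2 F) ≤ Pr P S (fun F =>
      (LRc R1 R2 (-R2) R2 F ∨ LRc (-R2) (-R1) (-R2) R2 F) ∨
        (TBc (-R2) R2 R1 R2 F ∨ TBc (-R2) R2 (-R2) (-R1) F)) := by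
    apply Pr_mono hP
    intro F _ hF
    unfold Blk at hF
    by_contra hcon
    rw [not_or] at hcon
    exact hF ⟨hcon.1, hcon.2⟩
  have g1 := Pr_or_le hP S (fun F => LRc R1 R2 (-R2) R2 F ∨ LRc (-R2) (-R1) (-R2) R2 F)
    (fun F => TBc (-R2) R2 R1 R2 F ∨ TBc (-R2) R2 (-R2) (-R1) F)
  have g2 := Pr_or_le hP S (LRc R1 R2 (-R2) R2) (LRc (-R2) (-R1) (-R2) R2)
  have g3 := Pr_or_le hP S (TBc (-R2) R2 R1 R2) (TBc (-R2) R2 (-R2) (-R1))
  linarith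

end Q292.Lam
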