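import Pool.Agent.Q292.Lam.Est

/-!
Crossings of dyadic annuli: all scales.
-/

set_option autoImplicit false

namespace Q292.Lam

open Finset H974 Pool.Agent.W424.NC

/-- The annulus of scale `k`. -/
noncomputable def annk (k : ℕ) : Finset Edg := annE (2 ^ k) (2 ^ (k + 1))

/-- The box of radius `2 ^ i` is connected to distance `2 ^ j`. -/
def Cr (i j : ℕ) (F : Finset Edg) : Prop :=
  ∃ u v : Vtx, inR (-((2 ^ i : ℕ) : ℤ)) ((2 ^ i : ℕ) : ℤ) (-((2 ^ i : ℕ) : ℤ)) ((2 ^ i : ℕ) : ℤ) u ∧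
    (v.1 ≤ -((2 ^ j : ℕ) : ℤ) ∨ ((2 ^ j : ℕ) : ℤ) ≤ v.1 ∨ v.2 ≤ -((2 ^ j : ℕ) : ℤ) ∨
      ((2 ^ j : ℕ) : ℤ) ≤ v.2) ∧ Reach (↑F : Set Edg) u v

theorem pow2_mono {i j : ℕ} (h : i ≤ j) : 2 ^ i ≤ 2 ^ j := Nat.pow_le_pow_right (by norm_num) h

theorem annk_sub {k j : ℕ} (h : k < j) : annk k ⊆ boxE (2 ^ j) :=
  Finset.sdiff_subset.trans (boxE_mono (pow2_mono h))

/-- A crossing of all annuli is blocked by no annulus. -/
theorem cr_not_blk {i j : ℕ} {F : Finset Edg} (h : Cr i j F) {k : ℕ} (hik : i ≤ k) (hkj : k < j) :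
    ¬ Blk ((2 ^ k : ℕ) : ℤ) ((2 ^ (k + 1) : ℕ) : ℤ) F := by
  obtain ⟨u, v, hu, hv, hr⟩ := h
  have e1 : (2 ^ i : ℕ) ≤ 2 ^ k := pow2_mono hik
  have e2 : (2 ^ (k + 1) : ℕ) ≤ 2 ^ j := pow2_mono hkj
  have e3 := p2lt k
  obtain ⟨a, ha⟩ : ∃ a : ℕ, a = 2 ^ i := ⟨_, rfl⟩
  obtain ⟨b, hb⟩ : ∃ b : ℕ, b = 2 ^ k := ⟨_, rfl⟩
  obtain ⟨d, hd⟩ : ∃ d : ℕ, d = 2 ^ (k + 1) := ⟨_, rfl⟩
  obtain ⟨f, hf⟩ : ∃ f : ℕ, f = 2 ^ j := ⟨_, rfl⟩
  rw [← ha] at hu e1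
  rw [← hb] at e1 e3 ⊢
  rw [← hd] at e2 e3 ⊢
  rw [← hf] at hv e2
  refine not_blk (u := u) (v := v) (by omega) (by omega) ?_ hr (by omega)
  unfold inR at hu ⊢
  omega

theorem up_fin : ∃ c C : ℝ, 0 < c ∧ 0 < C ∧ ∀ i j : ℕ, i ≤ j → ∀ (P : Edg → ℝ), Ok P →
    ∀ t : ℕ → ℝ, (∀ k, i ≤ k → k < j → |t k| ≤ 1/4 ∧ ∀ e ∈ annk k, P e ≤ 1/2 + t k) →
      ∀ U : Finset Edg, boxE (2 ^ j) ⊆ U →
      Pr P U (fun F => ∀ k, i ≤ k → k < j → ¬ Blk ((2 ^ k : ℕ) : ℤ) ((2 ^ (k + 1) : ℕ) : ℤ) F) ≤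
        Real.exp (-(c * ∑ k ∈ Ico i j, gg C (2 ^ k) (t k))) := by
  obtain ⟨c, C, hc, hC, hb⟩ := blk_all
  refine ⟨c, C, hc, hC, ?_⟩
  intro i j hij P hP t
  induction j, hij using Nat.le_induction with
  | base =>
    intro _ U _
    simp only [Finset.Ico_self, Finset.sum_empty, mul_zero, neg_zero, Real.exp_zero]
    exact Pr_le_one hP _ _
  | succ j hij ih =>
    intro ht U hU
    have hU' : boxE (2 ^ j) ⊆ U := (boxE_mono (pow2_mono (Nat.le_succ j))).trans hU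
    have i1 := ih (fun k h1 h2 => ht k h1 (by omega)) U hU'
    have hann : annk j ⊆ U := (annk_sub (Nat.lt_succ_self j)).trans hU
    have e1 : Pr P U (fun F => ∀ k, i ≤ k → k < j + 1 →
          ¬ Blk ((2 ^ k : ℕ) : ℤ) ((2 ^ (k + 1) : ℕ) : ℤ) F) =
        Pr P U (fun F => (∀ k, i ≤ k → k < j →
          ¬ Blk ((2 ^ k : ℕ) : ℤ) ((2 ^ (k + 1) : ℕ) : ℤ) F) ∧
          ¬ Blk ((2 ^ j : ℕ) : ℤ) ((2 ^ (j + 1) : ℕ) : ℤ) F) := by
      apply Pr_congr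
      intro F _
      constructor
      · intro h
        exact ⟨fun k hk hk2 => h k hk (by omega), h j hij (by omega)⟩
      · rintro ⟨h, h'⟩ k hk hk2
        rcases Nat.lt_or_ge k j with hlt | hge
        · exact h k hk hlt
        · have : k = j := by omega
          rw [this]; exact h'
    have i2 := Pr_indep (p := P) (A := fun F => ∀ k, i ≤ k → k < j →
          ¬ Blk ((2 ^ k : ℕ) : ℤ) ((2 ^ (k + 1) : ℕ) : ℤ) F)
      (B := fun F => ¬ Blk ((2 ^ j : ℕ) : ℤ) ((2 ^ (j + 1) : ℕ) : ℤ) F) hU' hann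
      (Finset.disjoint_sdiff)
      (fun F _ => forall_congr' fun k => forall_congr' fun _ => forall_congr' fun hk => not_congr
        (Blk_local (p2lt k) (annk_sub hk) F))
      (fun F _ => not_congr (Blk_local (p2lt j) (Finset.Subset.refl _) F))
    rw [e1, i2, Finset.sum_Ico_succ_top hij]
    obtain ⟨t1, t3⟩ := ht j hij (by omega)
    have b2 := hb j (t j) t1 P hP t3 U hann
    have e3 : Real.exp (-(c * (∑ k ∈ Ico i j, gg C (2 ^ k) (t k) + gg C (2 ^ j) (t j)))) =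
        Real.exp (-(c * ∑ k ∈ Ico i j, gg C (2 ^ k) (t k))) *
          Real.exp (-(c * gg C (2 ^ j) (t j))) := by
      rw [← Real.exp_add]; congr 1; ring
    rw [e3]
    exact mul_le_mul i1 b2 (Pr_nonneg hP _ _) (Real.exp_pos _).le

/-- the horizontal crossings -/
def Hc (k : ℕ) (F : Finset Edg) : Prop :=
  LRc ((2 ^ k : ℕ) : ℤ) ((2 ^ (k + 2) : ℕ) : ℤ) (-((2 ^ k : ℕ) : ℤ)) ((2 ^ k : ℕ) : ℤ) F

/-- the last horizontal crossing -/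
def Hl (k : ℕ) (F : Finset Edg) : Prop :=
  LRc ((2 ^ k : ℕ) : ℤ) ((2 ^ (k + 1) : ℕ) : ℤ) (-((2 ^ k : ℕ) : ℤ)) ((2 ^ k : ℕ) : ℤ) F

/-- the vertical crossings -/
def Vc (k : ℕ) (F : Finset Edg) : Prop :=
  TBc (((2 ^ k : ℕ) : ℤ) + 1) ((2 ^ (k + 1) : ℕ) : ℤ) (-((2 ^ k : ℕ) : ℤ)) ((2 ^ k : ℕ) : ℤ) F

theorem cross_glue {i n : ℕ} (hin : i ≤ n) {F : Finset Edg}
    (hH : ∀ k, i ≤ k → k < n → Hc k F) (hV : ∀ k, i ≤ k → k < n → Vc (k + 1) F)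
    (hL : Hl n F) : Cr i (n + 1) F := by
  -- starting points of the crossings
  have starts : ∀ k, i ≤ k → k ≤ n → ∃ b : ℤ, ((2 ^ (k + 1) : ℕ) : ℤ) ≤ b ∧ (k < n → b = ((2 ^ (k + 2) : ℕ) : ℤ)) ∧
      ∃ y y' : ℤ, (-((2 ^ k : ℕ) : ℤ) ≤ y ∧ y ≤ ((2 ^ k : ℕ) : ℤ)) ∧
        Reach (↑F ∩ ↑(RE ((2 ^ k : ℕ) : ℤ) b (-((2 ^ k : ℕ) : ℤ)) ((2 ^ k : ℕ) : ℤ)))
          (((2 ^ k : ℕ) : ℤ), y) (b, y') := by
    intro k hk1 hk2
    rcases Nat.lt_or_ge k n with h | h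
    · obtain ⟨y, y', h1, h2, h3⟩ := hH k hk1 h
      have := pow2_mono (Nat.le_succ (k + 1))
      exact ⟨_, by exact_mod_cast this, fun _ => rfl, y, y', h1,
        h3.mono (Set.inter_subset_inter_right _ (by exact_mod_cast LRE_subset_RE))⟩
    · have hkn : k = n := by omega
      subst hkn
      obtain ⟨y, y', h1, h2, h3⟩ := hL
      exact ⟨_, le_rfl, fun h => absurd h (lt_irrefl _), y, y', h1,
        h3.mono (Set.inter_subset_inter_right _ (by exact_mod_cast LRE_subset_RE))⟩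
  -- consecutive crossings are connected
  have link : ∀ k, i ≤ k → k < n → ∀ b b' : ℤ, b = ((2 ^ (k + 2) : ℕ) : ℤ) →
      ((2 ^ (k + 2) : ℕ) : ℤ) ≤ b' → ∀ y y' z z' : ℤ,
      Reach (↑F ∩ ↑(RE ((2 ^ k : ℕ) : ℤ) b (-((2 ^ k : ℕ) : ℤ)) ((2 ^ k : ℕ) : ℤ)))
          (((2 ^ k : ℕ) : ℤ), y) (b, y') →
      Reach (↑F ∩ ↑(RE ((2 ^ (k + 1) : ℕ) : ℤ) b' (-((2 ^ (k + 1) : ℕ) : ℤ))
          ((2 ^ (k + 1) : ℕ) : ℤ))) (((2 ^ (k + 1) : ℕ) : ℤ), z) (b', z') →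
      Reach (↑F : Set Edg) (((2 ^ k : ℕ) : ℤ), y) (((2 ^ (k + 1) : ℕ) : ℤ), z) := by
    intro k hk1 hk2 b b' hb hb' y y' z z' r1 r2
    obtain ⟨x, x', g1, g2, g3⟩ := hV k hk1 hk2
    have g4 := g3.mono (Set.inter_subset_inter_right _ (by exact_mod_cast TBE_subset_RE))
    have e1 : (2 ^ (k + 1) : ℕ) = 2 * 2 ^ k := p2s k
    have e2 : (2 ^ (k + 2) : ℕ) = 2 * 2 ^ (k + 1) := p2s (k + 1)
    have e3 : (1 : ℕ) ≤ 2 ^ k := Nat.one_le_two_pow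
    have e5 : (2 ^ (k + 1 + 1) : ℕ) = 2 ^ (k + 2) := rfl
    rw [e5] at g4
    obtain ⟨m, hm⟩ : ∃ m : ℕ, m = 2 ^ k := ⟨_, rfl⟩
    obtain ⟨m1, hm1⟩ : ∃ m : ℕ, m = 2 ^ (k + 1) := ⟨_, rfl⟩
    obtain ⟨m2, hm2⟩ : ∃ m : ℕ, m = 2 ^ (k + 2) := ⟨_, rfl⟩
    rw [← hm, ← hm1] at e1
    rw [← hm1, ← hm2] at e2
    rw [← hm] at e3 r1
    rw [← hm1] at r2
    rw [← hm1, ← hm2] at g4
    rw [← hm2] at hb hb'
    have s1 := cross_meet (F := (↑F : Set Edg)) (A := (m:ℤ)) (B := b) (C := -(m1:ℤ)) (D := m1)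
      (a := (m1:ℤ) + 1) (b := m2) (c := -(m:ℤ)) (d := m) (by omega) (by omega) (by omega)
      (by omega) (by omega) (by omega) r1 (by simp only; omega) (by simp only; omega)
      g4 (by simp only; omega) (by simp only; omega)
    have s2 := cross_meet (F := (↑F : Set Edg)) (A := (m1:ℤ)) (B := b') (C := -(m1:ℤ)) (D := m1)
      (a := (m1:ℤ) + 1) (b := m2) (c := -(m1:ℤ)) (d := m1) (by omega) (by omega) (by omega)
      (by omega) (by omega) (by omega) r2 (by simp only; omega) (by simp only; omega)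
      g4 (by simp only; omega) (by simp only; omega)
    rw [← hm, ← hm1]
    exact (s1.mono Set.inter_subset_left).trans (s2.mono Set.inter_subset_left).symm
  obtain ⟨b0, hb0, hb0', y0, y0', h0, r0⟩ := starts i le_rfl hin
  have all : ∀ k, i ≤ k → k ≤ n → ∀ b : ℤ, ((2 ^ (k + 1) : ℕ) : ℤ) ≤ b →
      (k < n → b = ((2 ^ (k + 2) : ℕ) : ℤ)) → ∀ y y' : ℤ,
        Reach (↑F ∩ ↑(RE ((2 ^ k : ℕ) : ℤ) b (-((2 ^ k : ℕ) : ℤ)) ((2 ^ k : ℕ) : ℤ)))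
          (((2 ^ k : ℕ) : ℤ), y) (b, y') → i < k →
        Reach (↑F : Set Edg) (((2 ^ i : ℕ) : ℤ), y0) (((2 ^ k : ℕ) : ℤ), y) := by
    intro k hk
    induction k, hk using Nat.le_induction with
    | base => intro _ _ _ _ _ _ _ h; exact absurd h (lt_irrefl _)
    | succ k hk ih =>
      intro hkn b hb hb' y y' r _
      rcases Nat.eq_or_lt_of_le hk with h | h
      · subst h
        exact link i le_rfl (by omega) b0 b (hb0' (by omega)) hb y0 y0' y y' r0 r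
      · obtain ⟨b1, hb1, hb1', y1, y1', h1, r1⟩ := starts k hk (by omega)
        have s1 := ih (by omega) b1 hb1 hb1' y1 y1' r1 h
        exact s1.trans (link k hk (by omega) b1 b (hb1' (by omega)) hb y1 y1' y y' r1 r)
  obtain ⟨y, y', h1, h2, h3⟩ := hL
  have h4 := h3.mono (Set.inter_subset_inter_right (↑F : Set Edg)
    (t := ↑(RE ((2 ^ n : ℕ) : ℤ) ((2 ^ (n + 1) : ℕ) : ℤ) (-((2 ^ n : ℕ) : ℤ)) ((2 ^ n : ℕ) : ℤ)))
    (by exact_mod_cast LRE_subset_RE))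
  rcases Nat.eq_or_lt_of_le hin with h | h
  · subst h
    refine ⟨(((2 ^ i : ℕ) : ℤ), y), (((2 ^ (i + 1) : ℕ) : ℤ), y'), ?_, Or.inr (Or.inl le_rfl),
      h4.mono Set.inter_subset_left⟩
    unfold inR
    have : (0:ℤ) ≤ ((2 ^ i : ℕ) : ℤ) := by positivity
    refine ⟨⟨by simp only; omega, le_rfl⟩, h1⟩
  · have s := all n hin le_rfl _ le_rfl (fun h => absurd h (lt_irrefl _)) y y' h4 h
    refine ⟨(((2 ^ i : ℕ) : ℤ), y0), (((2 ^ (n + 1) : ℕ) : ℤ), y'), ?_, Or.inr (Or.inl le_rfl),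
      s.trans (h4.mono Set.inter_subset_left)⟩
    unfold inR
    have : (0:ℤ) ≤ ((2 ^ i : ℕ) : ℤ) := by positivity
    refine ⟨⟨by simp only; omega, le_rfl⟩, h0⟩

theorem Hc_incr (k : ℕ) (S : Finset Edg) : IncrE S (Hc k) := LRc_incr _ _ _ _ _
theorem Hl_incr (k : ℕ) (S : Finset Edg) : IncrE S (Hl k) := LRc_incr _ _ _ _ _
theorem Vc_incr (k : ℕ) (S : Finset Edg) : IncrE S (Vc k) := TBc_incr _ _ _ _ _

theorem Hc_sub (k : ℕ) : LRE ((2 ^ k : ℕ) : ℤ) ((2 ^ (k + 2) : ℕ) : ℤ) (-((2 ^ k : ℕ) : ℤ))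
    ((2 ^ k : ℕ) : ℤ) ⊆ annk k ∪ annk (k + 1) := by
  have e1 : (2 ^ (k + 1) : ℕ) = 2 * 2 ^ k := p2s k
  have e2 : (2 ^ (k + 2) : ℕ) = 2 * 2 ^ (k + 1) := p2s (k + 1)
  have e5 : (2 ^ (k + 1 + 1) : ℕ) = 2 ^ (k + 2) := rfl
  have e6 : (1 : ℕ) ≤ 2 ^ k := Nat.one_le_two_pow
  unfold annk annE
  rw [e5]
  obtain ⟨m, hm⟩ : ∃ m : ℕ, m = 2 ^ k := ⟨_, rfl⟩
  obtain ⟨m1, hm1⟩ : ∃ m : ℕ, m = 2 ^ (k + 1) := ⟨_, rfl⟩
  obtain ⟨m2, hm2⟩ : ∃ m : ℕ, m = 2 ^ (k + 2) := ⟨_, rfl⟩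
  rw [← hm, ← hm1] at e1
  rw [← hm1, ← hm2] at e2
  rw [← hm] at e6
  rw [← hm, ← hm1, ← hm2]
  rintro ⟨x, y, _ | _⟩ h8
  · rw [mem_LRE_false] at h8
    rw [Finset.mem_union, Finset.mem_sdiff, Finset.mem_sdiff, mem_boxE_false, mem_boxE_false,
      mem_boxE_false]
    omega
  · rw [mem_LRE_true] at h8
    rw [Finset.mem_union, Finset.mem_sdiff, Finset.mem_sdiff, mem_boxE_true, mem_boxE_true,
      mem_boxE_true]
    omega

theorem Hl_sub (k : ℕ) : LRE ((2 ^ k : ℕ) : ℤ) ((2 ^ (k + 1) : ℕ) : ℤ) (-((2 ^ k : ℕ) : ℤ))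
    ((2 ^ k : ℕ) : ℤ) ⊆ annk k := by
  have e1 : (2 ^ (k + 1) : ℕ) = 2 * 2 ^ k := p2s k
  have e6 : (1 : ℕ) ≤ 2 ^ k := Nat.one_le_two_pow
  unfold annk annE
  obtain ⟨m, hm⟩ : ∃ m : ℕ, m = 2 ^ k := ⟨_, rfl⟩
  obtain ⟨m1, hm1⟩ : ∃ m : ℕ, m = 2 ^ (k + 1) := ⟨_, rfl⟩
  rw [← hm, ← hm1] at e1
  rw [← hm] at e6
  rw [← hm, ← hm1]
  rintro ⟨x, y, _ | _⟩ h8
  · rw [mem_LRE_false] at h8
    rw [Finset.mem_sdiff, mem_boxE_false, mem_boxE_false]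
    omega
  · rw [mem_LRE_true] at h8
    rw [Finset.mem_sdiff, mem_boxE_true, mem_boxE_true]
    omega

theorem Vc_sub (k : ℕ) : TBE (((2 ^ k : ℕ) : ℤ) + 1) ((2 ^ (k + 1) : ℕ) : ℤ)
    (-((2 ^ k : ℕ) : ℤ)) ((2 ^ k : ℕ) : ℤ) ⊆ annk k := by
  have e1 : (2 ^ (k + 1) : ℕ) = 2 * 2 ^ k := p2s k
  have e6 : (1 : ℕ) ≤ 2 ^ k := Nat.one_le_two_pow
  unfold annk annE
  obtain ⟨m, hm⟩ : ∃ m : ℕ, m = 2 ^ k := ⟨_, rfl⟩
  obtain ⟨m1, hm1⟩ : ∃ m : ℕ, m = 2 ^ (k + 1) := ⟨_, rfl⟩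
  rw [← hm, ← hm1] at e1
  rw [← hm] at e6
  rw [← hm, ← hm1]
  rintro ⟨x, y, _ | _⟩ h8
  · rw [mem_TBE_false] at h8
    rw [Finset.mem_sdiff, mem_boxE_false, mem_boxE_false]
    omega
  · rw [mem_TBE_true] at h8
    rw [Finset.mem_sdiff, mem_boxE_true, mem_boxE_true]
    omega

/-- Harris' inequality for finitely many increasing events. -/
theorem harris_fam {P : Edg → ℝ} (hP : Ok P) {S : Finset Edg} {A : ℕ → Finset Edg → Prop}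
    (hA : ∀ k, IncrE S (A k)) {a : ℕ → ℝ} {i n : ℕ} (hin : i ≤ n)
    (h : ∀ k, i ≤ k → k < n → Real.exp (-(a k)) ≤ Pr P S (A k)) :
    Real.exp (-(∑ k ∈ Ico i n, a k)) ≤ Pr P S (fun F => ∀ k, i ≤ k → k < n → A k F) := by
  induction n, hin using Nat.le_induction with
  | base =>
    simp only [Finset.Ico_self, Finset.sum_empty, neg_zero, Real.exp_zero]
    have e : Pr P S (fun F => ∀ k, i ≤ k → k < i → A k F) = Pr P S (fun _ => True) := by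
      apply Pr_congr
      intro F _
      exact ⟨fun _ => trivial, fun _ k h1 h2 => by omega⟩
    rw [e]
    unfold Pr
    rw [show (fun F : Finset Edg => ind True) = fun _ => (1:ℝ) from by
      funext F; unfold ind; simp]
    rw [Ex_const]
  | succ n hin ih =>
    have i1 := ih (fun k h1 h2 => h k h1 (by omega))
    have i2 := h n hin (by omega)
    have e1 : Pr P S (fun F => ∀ k, i ≤ k → k < n + 1 → A k F) =
        Pr P S (fun F => (∀ k, i ≤ k → k < n → A k F) ∧ A n F) := by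
      apply Pr_congr
      intro F _
      constructor
      · intro h
        exact ⟨fun k hk hk2 => h k hk (by omega), h n hin (by omega)⟩
      · rintro ⟨h, h'⟩ k hk hk2
        rcases Nat.lt_or_ge k n with hlt | hge
        · exact h k hk hlt
        · have : k = n := by omega
          rw [this]; exact h'
    have i3 := Pr_harris hP (S := S) (A := fun F => ∀ k, i ≤ k → k < n → A k F) (B := A n)
      (fun F G hFG hG hF k h1 h2 => hA k F G hFG hG (hF k h1 h2)) (hA n)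
    rw [e1, Finset.sum_Ico_succ_top hin]
    refine le_trans ?_ i3
    have e3 : Real.exp (-(∑ k ∈ Ico i n, a k + a n)) =
        Real.exp (-(∑ k ∈ Ico i n, a k)) * Real.exp (-(a n)) := by
      rw [← Real.exp_add]; congr 1; ring
    rw [e3]
    exact mul_le_mul i1 i2 (Real.exp_pos _).le (Pr_nonneg hP _ _)

theorem sum_shift_le {a : ℕ → ℝ} (ha : ∀ k, 0 ≤ a k) {i n : ℕ} (hin : i ≤ n) :
    ∑ k ∈ Ico i n, (a k + a (k + 1)) ≤ 2 * ∑ k ∈ Ico i (n + 1), a k := by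
  have h1 : ∑ k ∈ Ico i n, a k ≤ ∑ k ∈ Ico i (n + 1), a k :=
    Finset.sum_le_sum_of_subset_of_nonneg (Finset.Ico_subset_Ico_right (Nat.le_succ n))
      (fun k _ _ => ha k)
  have h2 : ∑ k ∈ Ico i n, a (k + 1) ≤ ∑ k ∈ Ico i (n + 1), a k := by
    rw [Finset.sum_Ico_add' (fun k => a k) i n 1]
    exact Finset.sum_le_sum_of_subset_of_nonneg (Finset.Ico_subset_Ico_left (Nat.le_succ i))
      (fun k _ _ => ha k)
  rw [Finset.sum_add_distrib]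
  linarith

theorem low_fin : ∃ c C : ℝ, 0 < c ∧ 0 < C ∧ ∀ i n : ℕ, i ≤ n → ∀ (P : Edg → ℝ), Ok P →
    ∀ s : ℕ → ℝ, (∀ k, i ≤ k → k ≤ n → |s k| ≤ 1/4 ∧ ∀ e ∈ annk k, 1/2 + s k ≤ P e) →
      ∀ U : Finset Edg, boxE (2 ^ (n + 1)) ⊆ U →
        Real.exp (-(C * ∑ k ∈ Ico i (n + 1), gg c (2 ^ k) (s k))) ≤ Pr P U (Cr i (n + 1)) := by
  obtain ⟨c, C, hc, hC, hr⟩ := rect_all 4 (by norm_num)
  refine ⟨c / 2, 20 * C, by positivity, by positivity, ?_⟩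
  intro i n hin P hP s hs U hU
  have hsub : ∀ k, k ≤ n → annk k ⊆ U := fun k hk => (annk_sub (by omega)).trans hU
  obtain ⟨a, ha⟩ : ∃ a : ℕ → ℝ, a = fun k => gg (c / 2) (2 ^ k) (s k) := ⟨_, rfl⟩
  have ha' : ∀ k, gg (c / 2) (2 ^ k) (s k) = a k := fun k => by rw [ha]
  have ha0 : ∀ k, 0 < a k := fun k => by rw [← ha']; exact gg_pos (by positivity)
  have h2k : ∀ k : ℕ, (0:ℝ) ≤ 2 ^ k := fun k => by positivity
  -- costs of rectangles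
  have hbig : ∀ (w : ℕ) (k : ℕ) (x : ℝ), 2 ^ k ≤ w → w ≤ 4 * 2 ^ k →
      gg c (w : ℝ) x ≤ 4 * gg c (2 ^ k) x := by
    intro w k x h1 h2
    refine gg_big hc.le ?_ ?_
    · exact_mod_cast h1
    · exact_mod_cast h2
  have hsame : ∀ k : ℕ, gg c (2 ^ k) (s k) ≤ a k := fun k => by
    rw [← ha']; exact gg_anti_c (by linarith) (h2k k)
  have hnext : ∀ k : ℕ, gg c (2 ^ k) (s (k + 1)) ≤ a (k + 1) := fun k => by
    rw [← ha', pow_succ' (2:ℝ) k]; exact gg_half (h2k k)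
  -- one horizontal crossing
  have H1 : ∀ k, i ≤ k → k < n →
      Real.exp (-(4 * C * (a k + a (k + 1)))) ≤ Pr P U (Hc k) := by
    intro k h1 h2
    obtain ⟨a2, a3⟩ := hs k h1 h2.le
    obtain ⟨b2, b3⟩ := hs (k + 1) (by omega) (by omega)
    obtain ⟨m, hm⟩ : ∃ m : ℝ, m = min (s k) (s (k + 1)) := ⟨_, rfl⟩
    rw [abs_le] at a2 b2
    have m1 : m ≤ s k := by rw [hm]; exact min_le_left _ _
    have m2 : m ≤ s (k + 1) := by rw [hm]; exact min_le_right _ _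
    have m0 : -(1/4) ≤ m := by rw [hm]; exact le_min a2.1 b2.1
    have m3 : |m| ≤ 1/4 := abs_le.2 ⟨m0, by linarith⟩
    have g1 := pr_ge_hom (A := Hc k) hP (q := 1/2 + m) (by linarith) (by linarith)
      (T := LRE ((2 ^ k : ℕ) : ℤ) ((2 ^ (k + 2) : ℕ) : ℤ) (-((2 ^ k : ℕ) : ℤ)) ((2 ^ k : ℕ) : ℤ))
      (S := U) ((Hc_sub k).trans (Finset.union_subset (hsub k h2.le) (hsub (k + 1) (by omega))))
      (fun F => LRc_local (Finset.Subset.refl _)) (LRc_incr _ _ _ _ _)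
      (fun e he => by
        rcases Finset.mem_union.1 (Hc_sub k he) with h | h
        · exact le_trans (by linarith) (a3 e h)
        · exact le_trans (by linarith) (b3 e h))
    refine le_trans ?_ g1
    unfold Hc
    rw [pr_LRc _ ((Hc_sub k).trans (Finset.union_subset (hsub k h2.le) (hsub (k + 1) (by omega))))]
    have e1 : ((2 ^ (k + 2) : ℕ) : ℤ) - ((2 ^ k : ℕ) : ℤ) = ((3 * 2 ^ k : ℕ) : ℤ) := by
      push_cast; rw [pow_add]; ring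
    have e2 : ((2 ^ k : ℕ) : ℤ) - -((2 ^ k : ℕ) : ℤ) = ((2 * 2 ^ k : ℕ) : ℤ) := by
      push_cast; ring
    rw [e1, e2]
    have e6 : (1 : ℕ) ≤ 2 ^ k := Nat.one_le_two_pow
    refine le_trans ?_ (hr m m3 (3 * 2 ^ k) (2 * 2 ^ k) (by omega) (by omega)
      (by omega) (by omega))
    apply Real.exp_le_exp.2
    have h3 := hbig (3 * 2 ^ k) k m (by omega) (by omega)
    have h4 : gg c (2 ^ k) m ≤ gg c (2 ^ k) (s k) + gg c (2 ^ k) (s (k + 1)) := by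
      rw [hm]; exact gg_min (h2k k) _ _
    have h5 := hsame k
    have h6 := hnext k
    have h7 : gg c ((3 * 2 ^ k : ℕ) : ℝ) m ≤ 4 * (a k + a (k + 1)) := by linarith
    have h8 := mul_le_mul_of_nonneg_left h7 hC.le
    linarith
  have V1 : ∀ k, i ≤ k → k < n →
      Real.exp (-(4 * C * (a k + a (k + 1)))) ≤ Pr P U (Vc (k + 1)) := by
    intro k h1 h2
    obtain ⟨b2, b3⟩ := hs (k + 1) (by omega) (by omega)
    have b2' := abs_le.1 b2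
    have g1 := pr_ge_hom (A := Vc (k + 1)) hP (q := 1/2 + s (k + 1)) (by linarith) (by linarith)
      (T := TBE (((2 ^ (k + 1) : ℕ) : ℤ) + 1) ((2 ^ (k + 1 + 1) : ℕ) : ℤ)
        (-((2 ^ (k + 1) : ℕ) : ℤ)) ((2 ^ (k + 1) : ℕ) : ℤ))
      (S := U) ((Vc_sub (k + 1)).trans (hsub (k + 1) (by omega)))
      (fun F => TBc_local (Finset.Subset.refl _)) (TBc_incr _ _ _ _ _)
      (fun e he => b3 e (Vc_sub (k + 1) he))
    refine le_trans ?_ g1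
    unfold Vc
    rw [pr_TBc _ ((Vc_sub (k + 1)).trans (hsub (k + 1) (by omega)))]
    have e6 : (1 : ℕ) ≤ 2 ^ k := Nat.one_le_two_pow
    have e7 : (2 ^ (k + 1) : ℕ) = 2 * 2 ^ k := p2s k
    have e1 : ((2 ^ (k + 1) : ℕ) : ℤ) - -((2 ^ (k + 1) : ℕ) : ℤ) = ((2 * 2 ^ (k + 1) : ℕ) : ℤ) := by
      push_cast; ring
    have e2 : ((2 ^ (k + 1 + 1) : ℕ) : ℤ) - (((2 ^ (k + 1) : ℕ) : ℤ) + 1) =
        ((2 ^ (k + 1) - 1 : ℕ) : ℤ) := by
      rw [Nat.cast_sub Nat.one_le_two_pow]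
      push_cast; rw [pow_succ 2 (k + 1)]; ring
    rw [e1, e2]
    refine le_trans ?_ (hr (s (k + 1)) b2 (2 * 2 ^ (k + 1)) (2 ^ (k + 1) - 1) (by omega)
      (by omega) (by omega) (by omega))
    apply Real.exp_le_exp.2
    have h3 := hbig (2 * 2 ^ (k + 1)) (k + 1) (s (k + 1)) (by omega) (by omega)
    have h5 := hsame (k + 1)
    have h6 := (ha0 k).le
    have h7 : gg c ((2 * 2 ^ (k + 1) : ℕ) : ℝ) (s (k + 1)) ≤ 4 * (a k + a (k + 1)) := by linarith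
    have h8 := mul_le_mul_of_nonneg_left h7 hC.le
    linarith
  have L1 : Real.exp (-(4 * C * a n)) ≤ Pr P U (Hl n) := by
    obtain ⟨b2, b3⟩ := hs n hin le_rfl
    have b2' := abs_le.1 b2
    have g1 := pr_ge_hom (A := Hl n) hP (q := 1/2 + s n) (by linarith) (by linarith)
      (T := LRE ((2 ^ n : ℕ) : ℤ) ((2 ^ (n + 1) : ℕ) : ℤ) (-((2 ^ n : ℕ) : ℤ)) ((2 ^ n : ℕ) : ℤ))
      (S := U) ((Hl_sub n).trans (hsub n le_rfl))
      (fun F => LRc_local (Finset.Subset.refl _)) (LRc_incr _ _ _ _ _)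
      (fun e he => b3 e (Hl_sub n he))
    refine le_trans ?_ g1
    unfold Hl
    rw [pr_LRc _ ((Hl_sub n).trans (hsub n le_rfl))]
    have e1 : ((2 ^ (n + 1) : ℕ) : ℤ) - ((2 ^ n : ℕ) : ℤ) = ((2 ^ n : ℕ) : ℤ) := by
      push_cast; rw [pow_succ]; ring
    have e2 : ((2 ^ n : ℕ) : ℤ) - -((2 ^ n : ℕ) : ℤ) = ((2 * 2 ^ n : ℕ) : ℤ) := by
      push_cast; ring
    rw [e1, e2]
    have e6 : (1 : ℕ) ≤ 2 ^ n := Nat.one_le_two_pow
    refine le_trans ?_ (hr (s n) b2 (2 ^ n) (2 * 2 ^ n) (by omega) (by omega)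
      (by omega) (by omega))
    apply Real.exp_le_exp.2
    have h3 := hbig (2 ^ n) n (s n) le_rfl (by omega)
    have h5 := hsame n
    have h7 : gg c ((2 ^ n : ℕ) : ℝ) (s n) ≤ 4 * a n := by linarith
    have h8 := mul_le_mul_of_nonneg_left h7 hC.le
    linarith
  have HH := harris_fam hP (S := U) (A := Hc) (fun k => Hc_incr k U) hin H1
  have VV := harris_fam hP (S := U) (A := fun k => Vc (k + 1)) (fun k => Vc_incr (k + 1) U) hin V1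
  obtain ⟨Sg, hSg⟩ : ∃ x : ℝ, x = ∑ k ∈ Ico i (n + 1), a k := ⟨_, rfl⟩
  have hsum : ∑ k ∈ Ico i n, 4 * C * (a k + a (k + 1)) ≤ 8 * C * Sg := by
    rw [← Finset.mul_sum]
    have := sum_shift_le (a := a) (fun k => (ha0 k).le) hin
    rw [← hSg] at this
    nlinarith
  have hlast : a n ≤ Sg := by
    rw [hSg]
    exact Finset.single_le_sum (f := a) (fun k _ => (ha0 k).le)
      (Finset.mem_Ico.2 ⟨hin, by omega⟩)
  have hSg' : ∑ k ∈ Ico i (n + 1), gg (c / 2) (2 ^ k) (s k) = Sg := by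
    rw [hSg]; exact Finset.sum_congr rfl fun k _ => ha' k
  rw [hSg']
  have h1 := Pr_harris hP (S := U) (A := fun F => ∀ k, i ≤ k → k < n → Hc k F)
    (B := fun F => ∀ k, i ≤ k → k < n → Vc (k + 1) F)
    (fun F G hFG hG hF k h1 h2 => Hc_incr k U F G hFG hG (hF k h1 h2))
    (fun F G hFG hG hF k h1 h2 => Vc_incr (k + 1) U F G hFG hG (hF k h1 h2))
  have h2 := Pr_harris hP (S := U) (A := fun F => (∀ k, i ≤ k → k < n → Hc k F) ∧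
      ∀ k, i ≤ k → k < n → Vc (k + 1) F) (B := Hl n)
    (fun F G hFG hG hF => ⟨fun k h1 h2 => Hc_incr k U F G hFG hG (hF.1 k h1 h2),
      fun k h1 h2 => Vc_incr (k + 1) U F G hFG hG (hF.2 k h1 h2)⟩) (Hl_incr n U)
  have h3 : Pr P U (fun F => ((∀ k, i ≤ k → k < n → Hc k F) ∧
      ∀ k, i ≤ k → k < n → Vc (k + 1) F) ∧ Hl n F) ≤ Pr P U (Cr i (n + 1)) := by
    apply Pr_mono hP
    rintro F _ ⟨⟨h1, h2⟩, h3⟩
    exact cross_glue hin h1 h2 h3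
  have k1 : Real.exp (-(8 * C * Sg)) ≤ Pr P U (fun F => ∀ k, i ≤ k → k < n → Hc k F) :=
    le_trans (Real.exp_le_exp.2 (by linarith)) HH
  have k2 : Real.exp (-(8 * C * Sg)) ≤ Pr P U (fun F => ∀ k, i ≤ k → k < n → Vc (k + 1) F) :=
    le_trans (Real.exp_le_exp.2 (by linarith)) VV
  have k3 : Real.exp (-(4 * C * Sg)) ≤ Pr P U (Hl n) :=
    le_trans (Real.exp_le_exp.2 (by nlinarith)) L1
  have k4 : Real.exp (-(8 * C * Sg)) * Real.exp (-(8 * C * Sg)) ≤ _ :=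
    (mul_le_mul k1 k2 (Real.exp_pos _).le (Pr_nonneg hP _ _)).trans h1
  have k5 : (Real.exp (-(8 * C * Sg)) * Real.exp (-(8 * C * Sg))) * Real.exp (-(4 * C * Sg)) ≤ _ :=
    (mul_le_mul k4 k3 (Real.exp_pos _).le (Pr_nonneg hP _ _)).trans h2
  refine le_trans (le_of_eq ?_) (k5.trans h3)
  rw [← Real.exp_add, ← Real.exp_add]
  congr 1
  ring

end Q292.Lam
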