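import Pool.Agent.Q292.Lam.Circ
import Pool.Agent.H974R2.Infinite

/-!
Inhomogeneous bond percolation on the whole square lattice.
-/

set_option autoImplicit false

namespace Q292.Lam

open Finset H974 Pool.Agent.W424.NC MeasureTheory ProbabilityTheory

/-- Independent edges; `p e` is the probability that `e` is open. -/
noncomputable def law (p : sqLattice.edgeSet → unitInterval) : Measure (sqLattice.edgeSet → Bool) :=
  Measure.infinitePi (fun e => bernoulliMeasure true false (p e))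

theorem law_prob (p : sqLattice.edgeSet → unitInterval) : IsProbabilityMeasure (law p) := by
  unfold law; infer_instance

theorem lw_eq (p : sqLattice.edgeSet → unitInterval) {S T : Finset Edg} (hT : T ⊆ S) :
    (law p).real {ω | FF S ω = T} =
      (∏ e ∈ T, (p (toE e) : ℝ)) * ∏ e ∈ S \ T, (1 - (p (toE e) : ℝ)) := by
  classical
  rw [measureReal_def, FF_eq_pi hT]
  unfold law
  rw [Measure.infinitePi_pi _ (fun _ _ => MeasurableSet.of_discrete), ENNReal.toReal_prod,
    Finset.prod_image (toE_inj.injOn)]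
  have h1 : ∀ e ∈ S, ((ProbabilityTheory.bernoulliMeasure true false (p (toE e)))
      {b : Bool | b = true ↔ toE e ∈ T.image toE}).toReal =
        if e ∈ T then (p (toE e) : ℝ) else 1 - (p (toE e) : ℝ) := by
    intro e _
    by_cases he : e ∈ T
    · rw [if_pos he]
      have hm : toE e ∈ T.image toE := Finset.mem_image_of_mem _ he
      exact ProbabilityTheory.bernoulliMeasure_real_apply_of_mem_of_notMem (p (toE e))
        MeasurableSet.of_discrete (show (true = true ↔ toE e ∈ T.image toE) by simp [hm])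
        (show ¬ (false = true ↔ toE e ∈ T.image toE) by simp [hm])
    · rw [if_neg he]
      have hm : toE e ∉ T.image toE := by
        rw [toE_inj.mem_finset_image]; exact he
      exact ProbabilityTheory.bernoulliMeasure_real_apply_of_notMem_of_mem (p (toE e))
        MeasurableSet.of_discrete (show ¬ (true = true ↔ toE e ∈ T.image toE) by simp [hm])
        (show (false = true ↔ toE e ∈ T.image toE) by simp [hm])
  rw [Finset.prod_congr rfl h1, Finset.prod_ite]
  congr 1
  · apply Finset.prod_congr _ (fun _ _ => rfl)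
    ext e
    simp only [Finset.mem_filter]
    exact ⟨fun h => h.2, fun h => ⟨hT h, h⟩⟩
  · apply Finset.prod_congr _ (fun _ _ => rfl)
    ext e
    simp only [Finset.mem_filter, Finset.mem_sdiff]

theorem lw_event (p : sqLattice.edgeSet → unitInterval) (S : Finset Edg)
    (Q : Finset Edg → Prop) :
    (law p).real {ω | Q (FF S ω)} = Pr (fun e => (p (toE e) : ℝ)) S Q := by
  classical
  have hI := law_prob p
  rw [event_union, measureReal_biUnion_finset]
  · unfold Pr Ex
    rw [Finset.sum_filter]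
    apply Finset.sum_congr rfl
    intro T hT
    show _ = (∏ e ∈ T, (p (toE e) : ℝ)) * (∏ e ∈ S \ T, (1 - (p (toE e) : ℝ))) * ind (Q T)
    split_ifs with hQ
    · rw [lw_eq p (Finset.mem_powerset.mp hT), ind_of hQ, mul_one]
    · rw [ind_not_of hQ, mul_zero]
  · intro T _ T' _ hne
    rw [Function.onFun, Set.disjoint_left]
    intro ω h1 h2
    exact hne ((show FF S ω = T from h1).symm.trans (show FF S ω = T' from h2))
  · intro T _
    exact meas_FF S T

theorem ok_p (p : sqLattice.edgeSet → unitInterval) : Ok (fun e => (p (toE e) : ℝ)) :=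
  fun e => ⟨(p (toE e)).2.1, (p (toE e)).2.2⟩

/-- The sup norm of a vertex. -/
def nrm (v : ℤ × ℤ) : ℕ := max v.1.natAbs v.2.natAbs

/-- The distance of an edge to the origin: the larger one of the norms of its end points. -/
def rad (e : sqLattice.edgeSet) : ℕ := ((e : Sym2 (ℤ × ℤ)).map nrm).sup

theorem rad_toE (e : Edg) : rad (toE e) = max (nrm (src e)) (nrm (tgt e)) := rfl

theorem mem_box_rad {n : ℕ} {e : Edg} : e ∈ boxE n ↔ rad (toE e) ≤ n := by
  rw [rad_toE]
  obtain ⟨x, y, _ | _⟩ := e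
  · rw [mem_boxE_false, src_mk, tgt_false]
    unfold nrm
    simp only
    omega
  · rw [mem_boxE_true, src_mk, tgt_true]
    unfold nrm
    simp only
    omega

theorem mem_annk {k : ℕ} {e : Edg} :
    e ∈ annk k ↔ 2 ^ k < rad (toE e) ∧ rad (toE e) ≤ 2 ^ (k + 1) := by
  unfold annk annE
  rw [Finset.mem_sdiff, mem_box_rad, mem_box_rad]
  omega

/-- The box of radius `2 ^ i` is connected to the distance `2 ^ j`. -/
def Cross (i j : ℕ) : Set (sqLattice.edgeSet → Bool) :=
  {ω | ∃ u v : ℤ × ℤ, nrm u ≤ 2 ^ i ∧ 2 ^ j ≤ nrm v ∧ (openGraph ω).Reachable u v}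

theorem cross_iff {i j : ℕ} (hij : i ≤ j) (ω : sqLattice.edgeSet → Bool) :
    ω ∈ Cross i j ↔ Cr i j (FF (boxE (2 ^ j)) ω) := by
  have e1 : (2 ^ i : ℕ) ≤ 2 ^ j := pow2_mono hij
  constructor
  · rintro ⟨u, v, hu, hv, hr⟩
    rw [open_reach] at hr
    unfold nrm at hu hv
    unfold Cr
    obtain ⟨a, ha⟩ : ∃ a : ℕ, a = 2 ^ i := ⟨_, rfl⟩
    obtain ⟨b, hb⟩ : ∃ b : ℕ, b = 2 ^ j := ⟨_, rfl⟩
    rw [← ha, ← hb] at e1
    rw [← ha] at hu
    rw [← hb] at hv
    rw [← ha, ← hb]
    obtain ⟨w, k1, k2, k3⟩ := first_exit (a := -(b:ℤ)) (b := b) (c := -(b:ℤ)) (d := b)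
      (u := u) (v := v) (by unfold inR; omega) hr (by omega)
    refine ⟨u, w, by unfold inR; omega, ?_, ?_⟩
    · rcases k2 with k2 | k2 | k2 | k2
      · left; exact k2.le
      · right; left; exact k2.ge
      · right; right; left; exact k2.le
      · right; right; right; exact k2.ge
    · rw [FF_coe]
      exact k3
  · rintro ⟨u, v, hu, hv, hr⟩
    rw [FF_coe] at hr
    refine ⟨u, v, ?_, ?_, (open_reach ω u v).2 (hr.mono Set.inter_subset_left)⟩
    · unfold inR at hu
      unfold nrm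
      omega
    · unfold nrm
      omega

theorem cross_eq {i j : ℕ} (hij : i ≤ j) :
    Cross i j = {ω | Cr i j (FF (boxE (2 ^ j)) ω)} := by
  ext ω; exact cross_iff hij ω

theorem cross_meas {i j : ℕ} (hij : i ≤ j) : MeasurableSet (Cross i j) := by
  rw [cross_eq hij]; exact meas_event _ _

theorem cross_anti {i j k : ℕ} (h : j ≤ k) : Cross i k ⊆ Cross i j := by
  rintro ω ⟨u, v, hu, hv, hr⟩
  exact ⟨u, v, hu, (pow2_mono h).trans hv, hr⟩

theorem cross_diag (i : ℕ) : Cross i i = Set.univ := by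
  ext ω
  simp only [Set.mem_univ, iff_true]
  have : nrm (((2 ^ i : ℕ) : ℤ), 0) = 2 ^ i := by
    unfold nrm; simp
  exact ⟨(((2 ^ i : ℕ) : ℤ), 0), (((2 ^ i : ℕ) : ℤ), 0), this.le, this.ge, SimpleGraph.Reachable.refl _⟩

/-- Lower bound. -/
theorem inf_low : ∃ c C : ℝ, 0 < c ∧ 0 < C ∧ ∀ (i j : ℕ), i ≤ j →
    ∀ (p : sqLattice.edgeSet → unitInterval) (t : ℕ → ℝ), (∀ k, i ≤ k → k < j → |t k| ≤ 1/4) →
    (∀ k, i ≤ k → k < j → ∀ e, 2 ^ k < rad e → rad e ≤ 2 ^ (k + 1) → 1/2 + t k ≤ p e) →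
      Real.exp (-(C * ∑ k ∈ Ico i j, gg c (2 ^ k) (t k))) ≤ (law p).real (Cross i j) := by
  obtain ⟨c, C, hc, hC, h⟩ := low_fin
  refine ⟨c, C, hc, hC, ?_⟩
  intro i j hij p t ht hp
  have hI := law_prob p
  rcases Nat.eq_or_lt_of_le hij with h0 | h0
  · subst h0
    rw [cross_diag, probReal_univ, Finset.Ico_self, Finset.sum_empty, mul_zero,
      neg_zero, Real.exp_zero]
  · obtain ⟨n, rfl⟩ : ∃ n, j = n + 1 := ⟨j - 1, by omega⟩
    rw [cross_eq hij, lw_event]
    exact h i n (by omega) _ (ok_p p) t (fun k h1 h2 => ⟨ht k h1 (by omega), fun e he => by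
      obtain ⟨m1, m2⟩ := mem_annk.1 he
      exact hp k h1 (by omega) (toE e) m1 m2⟩) _ (Finset.Subset.refl _)

/-- Upper bound. -/
theorem inf_up : ∃ c C : ℝ, 0 < c ∧ 0 < C ∧ ∀ (i j : ℕ), i ≤ j →
    ∀ (p : sqLattice.edgeSet → unitInterval) (t : ℕ → ℝ), (∀ k, i ≤ k → k < j → |t k| ≤ 1/4) →
    (∀ k, i ≤ k → k < j → ∀ e, 2 ^ k < rad e → rad e ≤ 2 ^ (k + 1) → (p e : ℝ) ≤ 1/2 + t k) →
      (law p).real (Cross i j) ≤ Real.exp (-(c * ∑ k ∈ Ico i j, gg C (2 ^ k) (t k))) := by
  obtain ⟨c, C, hc, hC, h⟩ := up_fin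
  refine ⟨c, C, hc, hC, ?_⟩
  intro i j hij p t ht hp
  rw [cross_eq hij, lw_event]
  refine le_trans ?_ (h i j hij _ (ok_p p) t (fun k h1 h2 => ⟨ht k h1 h2, fun e he => by
      obtain ⟨m1, m2⟩ := mem_annk.1 he
      exact hp k h1 h2 (toE e) m1 m2⟩) _ (Finset.Subset.refl _))
  exact Pr_mono (ok_p p) (fun F _ hF k h1 h2 => cr_not_blk hF h1 h2)

/-- The open cluster of a vertex. -/
def clus (ω : sqLattice.edgeSet → Bool) (v : ℤ × ℤ) : Set (ℤ × ℤ) :=
  {w | (openGraph ω).Reachable v w}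

theorem nrm_fin (n : ℕ) : {v : ℤ × ℤ | nrm v ≤ n}.Finite := by
  have hfin : (Set.Icc (-(n:ℤ)) n ×ˢ Set.Icc (-(n:ℤ)) n).Finite :=
    (Set.finite_Icc _ _).prod (Set.finite_Icc _ _)
  refine hfin.subset ?_
  intro v hv
  have hv' : nrm v ≤ n := hv
  unfold nrm at hv'
  simp only [Set.mem_prod, Set.mem_Icc]
  omega

theorem nrm_lt (v : ℤ × ℤ) (i : ℕ) (h : nrm v ≤ i) : nrm v ≤ 2 ^ i :=
  h.trans (Nat.lt_two_pow_self).le

/-- infinite clusters cross all annuli -/
theorem inf_cross {ω : sqLattice.edgeSet → Bool} {v : ℤ × ℤ} (h : (clus ω v).Infinite) {i : ℕ}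
    (hi : nrm v ≤ 2 ^ i) (j : ℕ) : ω ∈ Cross i j := by
  obtain ⟨w, hw, hw'⟩ := h.exists_notMem_finite (nrm_fin (2 ^ j))
  have hw2 : ¬ nrm w ≤ 2 ^ j := hw'
  exact ⟨v, w, hi, by omega, hw⟩

/-- a configuration which crosses all annuli has an infinite cluster -/
theorem cross_inf {ω : sqLattice.edgeSet → Bool} {i : ℕ} (h : ∀ j, i ≤ j → ω ∈ Cross i j) :
    ∃ v, (clus ω v).Infinite := by
  by_contra hcon
  push Not at hcon
  have hfin : (⋃ v ∈ {v : ℤ × ℤ | nrm v ≤ 2 ^ i}, clus ω v).Finite :=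
    (nrm_fin (2 ^ i)).biUnion (fun v _ => hcon v)
  have hb : (nrm '' (⋃ v ∈ {v : ℤ × ℤ | nrm v ≤ 2 ^ i}, clus ω v)).Finite := hfin.image _
  obtain ⟨N, hN⟩ := hb.bddAbove
  obtain ⟨u, v, hu, hv, hr⟩ := h (max i (N + 1)) (le_max_left _ _)
  have h1 : nrm v ≤ N := by
    refine hN (Set.mem_image_of_mem _ ?_)
    simp only [Set.mem_iUnion]
    exact ⟨u, hu, hr⟩
  have h2 : N + 1 ≤ max i (N + 1) := le_max_right _ _
  have h3 : (max i (N + 1)) < 2 ^ (max i (N + 1)) := Nat.lt_two_pow_self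
  omega

/-- No percolation. -/
theorem no_perc : ∃ C : ℝ, 0 < C ∧ ∀ (p : sqLattice.edgeSet → unitInterval) (t : ℕ → ℝ) (K : ℕ),
    (∀ k, K ≤ k → |t k| ≤ 1/4) →
    (∀ k, K ≤ k → ∀ e, 2 ^ k < rad e → rad e ≤ 2 ^ (k + 1) → (p e : ℝ) ≤ 1/2 + t k) →
    ¬ Summable (fun k => gg C (2 ^ k) (t k)) → ∀ᵐ ω ∂(law p), ∀ v, (clus ω v).Finite := by
  obtain ⟨c, C, hc, hC, h⟩ := inf_up
  refine ⟨C, hC, ?_⟩
  intro p t K ht hp hsum
  have hI := law_prob p
  have hg : ∀ k : ℕ, 0 ≤ gg C (2 ^ k) (t k) := fun k => (gg_pos (by positivity)).le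
  have key : ∀ i, K ≤ i → (law p) (⋂ j, Cross i (i + j)) = 0 := by
    intro i hi
    have h1 : ∀ j, (law p).real (⋂ j, Cross i (i + j)) ≤
        Real.exp (-(c * ∑ k ∈ Finset.range j, gg C (2 ^ (i + k)) (t (i + k)))) := by
      intro j
      refine (measureReal_mono (Set.iInter_subset _ j)).trans ?_
      refine (h i (i + j) (by omega) p t (fun k h1 _ => ht k (by omega))
        (fun k h1 _ => hp k (by omega))).trans (le_of_eq ?_)
      rw [Finset.sum_Ico_eq_sum_range, Nat.add_sub_cancel_left]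
    have h2 : ¬ Summable (fun k => gg C (2 ^ (i + k)) (t (i + k))) := by
      intro h3
      apply hsum
      rw [← summable_nat_add_iff i]
      refine h3.congr fun k => ?_
      rw [add_comm i k]
    have h3 : Filter.Tendsto (fun j => ∑ k ∈ Finset.range j, gg C (2 ^ (i + k)) (t (i + k)))
        Filter.atTop Filter.atTop :=
      (not_summable_iff_tendsto_nat_atTop_of_nonneg (fun k => hg (i + k))).1 h2
    have h4 : Filter.Tendsto (fun j => Real.exp (-(c * ∑ k ∈ Finset.range j,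
        gg C (2 ^ (i + k)) (t (i + k))))) Filter.atTop (nhds 0) :=
      Real.tendsto_exp_neg_atTop_nhds_zero.comp (h3.const_mul_atTop hc)
    have h5 : (law p).real (⋂ j, Cross i (i + j)) ≤ 0 := ge_of_tendsto' h4 h1
    have h6 : (law p).real (⋂ j, Cross i (i + j)) = 0 := le_antisymm h5 measureReal_nonneg
    exact (measureReal_eq_zero_iff).1 h6
  have key2 : ∀ᵐ ω ∂(law p), ∀ i, K ≤ i → ω ∉ ⋂ j, Cross i (i + j) := by
    rw [ae_all_iff]
    intro i
    by_cases hi : K ≤ i
    · have := key i hi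
      rw [← compl_mem_ae_iff] at this
      filter_upwards [this] with ω hω _
      exact hω
    · filter_upwards with ω h
      exact absurd h hi
  filter_upwards [key2] with ω hω v
  by_contra hinf
  refine hω (max K (nrm v)) (le_max_left _ _) ?_
  rw [Set.mem_iInter]
  intro j
  exact inf_cross hinf (nrm_lt v _ (le_max_right _ _)) _

/-- Percolation. -/
theorem perc : ∃ c : ℝ, 0 < c ∧ ∀ (p : sqLattice.edgeSet → unitInterval) (t : ℕ → ℝ) (K : ℕ),
    (∀ k, K ≤ k → |t k| ≤ 1/4) →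
    (∀ k, K ≤ k → ∀ e, 2 ^ k < rad e → rad e ≤ 2 ^ (k + 1) → 1/2 + t k ≤ (p e : ℝ)) →
    Summable (fun k => gg c (2 ^ k) (t k)) → ∀ᵐ ω ∂(law p), ∃ v, (clus ω v).Infinite := by
  obtain ⟨c, C, hc, hC, h⟩ := inf_low
  refine ⟨c, hc, ?_⟩
  intro p t K ht hp hsum
  have hI := law_prob p
  have hg : ∀ k : ℕ, 0 ≤ gg c (2 ^ k) (t k) := fun k => (gg_pos (by positivity)).le
  -- lower bounds of the probabilities
  have key : ∀ i, K ≤ i → Real.exp (-(C * ∑' k, gg c (2 ^ (k + i)) (t (k + i)))) ≤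
      (law p).real (⋂ j, Cross i (i + j)) := by
    intro i hi
    have hs2 : Summable (fun k => gg c (2 ^ (k + i)) (t (k + i))) :=
      (summable_nat_add_iff i).2 hsum
    have h1 : ∀ j, Real.exp (-(C * ∑' k, gg c (2 ^ (k + i)) (t (k + i)))) ≤
        (law p).real (Cross i (i + j)) := by
      intro j
      refine le_trans ?_ (h i (i + j) (by omega) p t (fun k h1 _ => ht k (by omega))
        (fun k h1 _ => hp k (by omega)))
      apply Real.exp_le_exp.2
      rw [Finset.sum_Ico_eq_sum_range, Nat.add_sub_cancel_left]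
      have h2 : ∑ k ∈ Finset.range j, gg c (2 ^ (k + i)) (t (k + i)) ≤
          ∑' k, gg c (2 ^ (k + i)) (t (k + i)) :=
        hs2.sum_le_tsum _ (fun k _ => hg (k + i))
      have h3 : ∑ k ∈ Finset.range j, gg c (2 ^ (i + k)) (t (i + k)) =
          ∑ k ∈ Finset.range j, gg c (2 ^ (k + i)) (t (k + i)) :=
        Finset.sum_congr rfl fun k _ => by rw [add_comm i k]
      rw [h3]
      nlinarith
    have h2 : Filter.Tendsto (fun j => (law p) (Cross i (i + j))) Filter.atTop
        (nhds ((law p) (⋂ j, Cross i (i + j)))) := by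
      apply tendsto_measure_iInter_atTop
      · intro j
        exact (cross_meas (by omega)).nullMeasurableSet
      · intro j k hjk
        exact cross_anti (by omega)
      · exact ⟨0, measure_ne_top _ _⟩
    have h3 : Filter.Tendsto (fun j => (law p).real (Cross i (i + j))) Filter.atTop
        (nhds ((law p).real (⋂ j, Cross i (i + j)))) :=
      (ENNReal.tendsto_toReal (measure_ne_top _ _)).comp h2
    exact ge_of_tendsto' h3 h1
  have hT : Filter.Tendsto (fun i => ∑' k, gg c (2 ^ (k + i)) (t (k + i))) Filter.atTop (nhds 0) :=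
    tendsto_sum_nat_add (fun k => gg c (2 ^ k) (t k))
  have hT2 : Filter.Tendsto (fun i => Real.exp (-(C * ∑' k, gg c (2 ^ (k + i)) (t (k + i)))))
      Filter.atTop (nhds 1) := by
    have := (hT.const_mul C).neg
    rw [mul_zero, neg_zero] at this
    have h2 := (Real.continuous_exp.tendsto 0).comp this
    rw [Real.exp_zero] at h2
    exact h2
  -- the complement is contained in events of small probability
  have h0 : (law p) {ω | ¬ ∃ v, (clus ω v).Infinite} = 0 := by
    have b1 : ∀ i, K ≤ i → (law p).real {ω | ¬ ∃ v, (clus ω v).Infinite} ≤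
        1 - Real.exp (-(C * ∑' k, gg c (2 ^ (k + i)) (t (k + i)))) := by
      intro i hi
      have hm : MeasurableSet (⋂ j, Cross i (i + j)) :=
        MeasurableSet.iInter fun j => cross_meas (by omega)
      have hsub : {ω | ¬ ∃ v, (clus ω v).Infinite} ⊆ (⋂ j, Cross i (i + j))ᶜ := by
        intro ω hω hcon
        apply hω
        rw [Set.mem_iInter] at hcon
        refine cross_inf (i := i) fun j hj => ?_
        have := hcon (j - i)
        rwa [Nat.add_sub_cancel' hj] at this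
      have h2 := measureReal_mono (μ := law p) hsub
      rw [probReal_compl_eq_one_sub hm] at h2
      have := key i hi
      linarith
    have b2 : (law p).real {ω | ¬ ∃ v, (clus ω v).Infinite} ≤ 1 - 1 := by
      refine ge_of_tendsto (tendsto_const_nhds.sub hT2) ?_
      filter_upwards [Filter.eventually_ge_atTop K] with i hi using b1 i hi
    have b3 : (law p).real {ω | ¬ ∃ v, (clus ω v).Infinite} = 0 :=
      le_antisymm (by linarith) measureReal_nonneg
    exact (measureReal_eq_zero_iff).1 b3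
  rw [ae_iff]
  exact h0

/-- The infinite cluster is unique when the edges are at least critical in all large annuli. -/
theorem uniq (p : sqLattice.edgeSet → unitInterval) (K : ℕ)
    (hp : ∀ e, 2 ^ K < rad e → (1/2 : ℝ) ≤ (p e : ℝ)) :
    ∀ᵐ ω ∂(law p), ∀ u v, (clus ω u).Infinite → (clus ω v).Infinite →
      (openGraph ω).Reachable u v := by
  obtain ⟨c, hc, hc1, h⟩ := circ_fin
  have hI := law_prob p
  have key : ∀ i, K + 1 ≤ i → (law p).real {ω | ∀ k, i ≤ k → ¬ Ck k (FF (boxE (2 ^ (k + 1))) ω)} ≤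
      0 := by
    intro i hi
    have h1 : ∀ j, (law p).real {ω | ∀ k, i ≤ k → ¬ Ck k (FF (boxE (2 ^ (k + 1))) ω)} ≤
        (1 - c) ^ j := by
      intro j
      have h2 := h i (i + j) (by omega) (by omega) (fun e => (p (toE e) : ℝ)) (ok_p p)
        (fun k h1 _ e he => hp (toE e) (by
          have h3 := (mem_annk.1 he).1
          have h4 : (2 ^ K : ℕ) ≤ 2 ^ k := pow2_mono (by omega)
          omega)) (boxE (2 ^ (i + j))) (Finset.Subset.refl _)
      rw [← lw_event, Nat.add_sub_cancel_left] at h2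
      refine (measureReal_mono ?_).trans h2
      intro ω hω k h3 h4 h5
      have h6 : FF (boxE (2 ^ (k + 1))) ω ⊆ FF (boxE (2 ^ (i + j))) ω := by
        intro e he
        rw [mem_FF] at he ⊢
        exact ⟨boxE_mono (pow2_mono (by omega)) he.1, he.2⟩
      refine hω k h3 ?_
      rw [ck_local k (S := annk k) (Finset.Subset.refl _)] at h5 ⊢
      have h7 : FF (boxE (2 ^ (k + 1))) ω ∩ annk k = FF (boxE (2 ^ (i + j))) ω ∩ annk k := by
        ext e
        rw [Finset.mem_inter, Finset.mem_inter, mem_FF, mem_FF]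
        constructor
        · rintro ⟨⟨m1, m2⟩, m3⟩
          exact ⟨⟨boxE_mono (pow2_mono (by omega)) m1, m2⟩, m3⟩
        · rintro ⟨⟨m1, m2⟩, m3⟩
          exact ⟨⟨annk_sub (Nat.lt_succ_self k) m3, m2⟩, m3⟩
      rw [h7]
      exact h5
    exact ge_of_tendsto' (tendsto_pow_atTop_nhds_zero_of_lt_one (by linarith) (by linarith)) h1
  have key2 : ∀ᵐ ω ∂(law p), ∀ i, K + 1 ≤ i → ∃ k, i ≤ k ∧ Ck k (FF (boxE (2 ^ (k + 1))) ω) := by
    rw [ae_all_iff]
    intro i
    by_cases hi : K + 1 ≤ i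
    · have h1 : (law p).real {ω | ∀ k, i ≤ k → ¬ Ck k (FF (boxE (2 ^ (k + 1))) ω)} = 0 :=
        le_antisymm (key i hi) measureReal_nonneg
      have h2 := (measureReal_eq_zero_iff).1 h1
      rw [← compl_mem_ae_iff] at h2
      filter_upwards [h2] with ω hω _
      have h3 : ¬ ∀ k, i ≤ k → ¬ Ck k (FF (boxE (2 ^ (k + 1))) ω) := hω
      push Not at h3
      exact h3
    · filter_upwards with ω h
      exact absurd h hi
  filter_upwards [key2] with ω hω u v hu hv
  obtain ⟨k, hk, hC⟩ := hω (max (K + 1) (max (nrm u) (nrm v))) (le_max_left _ _)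
  have hku : nrm u ≤ 2 ^ k :=
    nrm_lt u k ((le_max_left (nrm u) (nrm v)).trans ((le_max_right _ _).trans hk))
  have hkv : nrm v ≤ 2 ^ k :=
    nrm_lt v k ((le_max_right (nrm u) (nrm v)).trans ((le_max_right _ _).trans hk))
  have hk1 : 1 ≤ k := le_trans (by omega) ((le_max_left (K + 1) (max (nrm u) (nrm v))).trans hk)
  have e1 := p2s k
  have e2 : (2 : ℕ) ≤ 2 ^ k := by
    calc (2:ℕ) = 2 ^ 1 := rfl
      _ ≤ 2 ^ k := pow2_mono hk1
  have e3 : ((2 ^ k : ℕ) : ℤ) + 1 < ((2 ^ (k + 1) : ℕ) : ℤ) := by omega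
  obtain ⟨z, hz⟩ := circ_meet (by positivity) e3 hC
  have go : ∀ w : ℤ × ℤ, nrm w ≤ 2 ^ k → (clus ω w).Infinite → (openGraph ω).Reachable w z := by
    intro w hw hinf
    obtain ⟨x, hx, hx'⟩ := hinf.exists_notMem_finite (nrm_fin (2 ^ (k + 1)))
    have hx2 : ¬ nrm x ≤ 2 ^ (k + 1) := hx'
    have hr : Reach (opn ω) w x := (open_reach ω w x).1 hx
    obtain ⟨y, k1, k2, k3⟩ := first_exit (a := -((2 ^ (k + 1) : ℕ) : ℤ))
      (b := ((2 ^ (k + 1) : ℕ) : ℤ)) (c := -((2 ^ (k + 1) : ℕ) : ℤ)) (d := ((2 ^ (k + 1) : ℕ) : ℤ))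
      (u := w) (v := x) (by unfold inR; unfold nrm at hw; omega) hr
      (by unfold nrm at hx2; omega)
    have m := hz w y (by unfold inR; unfold nrm at hw; omega) k2 (by
      refine k3.mono ?_
      rintro e ⟨m1, m2⟩
      refine ⟨?_, m2⟩
      rw [FF_coe]
      exact ⟨m1, m2⟩)
    refine (open_reach ω w z).2 (m.mono ?_)
    rintro e ⟨m1, -⟩
    rw [FF_coe] at m1
    exact m1.1
  exact (go u hku hu).trans (go v hkv hv).symm

end Q292.Lam
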