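import Pool.Agent.Q292.Lam.Inf

/-!
The threshold for percolation and the exponents of decaying perturbations.
-/

set_option autoImplicit false

namespace Q292.Lam

open Finset H974 Pool.Agent.W424.NC MeasureTheory ProbabilityTheory

theorem rp43 {x : ℝ} (hx : 0 ≤ x) : (x ^ (3/4 : ℝ)) ^ (4/3 : ℝ) = x := by
  rw [← Real.rpow_mul hx]
  norm_num

theorem scale_div {w x y : ℝ} (hx : 0 ≤ x) (hy : 0 < y) :
    w * (x / y ^ (3/4 : ℝ)) ^ (4/3 : ℝ) = w / y * x ^ (4/3 : ℝ) := by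
  rw [Real.div_rpow hx (Real.rpow_nonneg hy.le _), rp43 hy.le]
  ring

/-- the perturbation of order `(log log r / r) ^ (3/4)` -/
noncomputable def pert (l : ℝ) (r : ℕ) : ℝ :=
  l * Real.log (Real.log r) ^ (3/4 : ℝ) / (r : ℝ) ^ (3/4 : ℝ)

/-- the values on dyadic annuli -/
noncomputable def tt (l : ℝ) (a b : ℕ → ℕ) (k : ℕ) : ℝ :=
  l * Real.log ((a k : ℝ) * Real.log 2) ^ (3/4 : ℝ) / ((2:ℝ) ^ (b k)) ^ (3/4 : ℝ)

theorem tt_scale {l : ℝ} (hl : 0 ≤ l) (a b : ℕ → ℕ) (k : ℕ) (w : ℝ)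
    (hk : 1 ≤ (a k : ℝ) * Real.log 2) :
    w * (tt l a b k) ^ (4/3 : ℝ) = w / 2 ^ (b k) * (l ^ (4/3 : ℝ) *
      Real.log ((a k : ℝ) * Real.log 2)) := by
  have h1 : 0 ≤ Real.log ((a k : ℝ) * Real.log 2) := Real.log_nonneg hk
  have h2 : 0 ≤ Real.log ((a k : ℝ) * Real.log 2) ^ (3/4 : ℝ) := Real.rpow_nonneg h1 _
  unfold tt
  rw [scale_div (mul_nonneg hl h2) (by positivity), Real.mul_rpow hl h2, rp43 h1]

theorem tt_nonneg {l : ℝ} (hl : 0 ≤ l) (a b : ℕ → ℕ) (k : ℕ)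
    (hk : 1 ≤ (a k : ℝ) * Real.log 2) : 0 ≤ tt l a b k := by
  have h1 : 0 ≤ Real.log ((a k : ℝ) * Real.log 2) := Real.log_nonneg hk
  unfold tt
  positivity

theorem log2_pos : 0 < Real.log 2 := Real.log_pos (by norm_num)
theorem log2_le : Real.log 2 ≤ 1 := by
  have := Real.log_le_sub_one_of_pos (show (0:ℝ) < 2 by norm_num); linarith
theorem log2_ge : 1/2 ≤ Real.log 2 := by
  have := Real.log_two_gt_d9; linarith

theorem tt_small {l : ℝ} (hl : 0 < l) (a b : ℕ → ℕ) (ha : ∀ k, a k ≤ k + 1) (ha2 : ∀ k, k ≤ a k)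
    (hb : ∀ k, k ≤ b k) : ∃ K : ℕ, ∀ k, K ≤ k → |tt l a b k| ≤ 1/4 := by
  have h1 : Filter.Tendsto (fun k : ℕ => ((k : ℝ) + 1) / 2 ^ k) Filter.atTop (nhds 0) := by
    have h2 := tendsto_pow_const_div_const_pow_of_one_lt 1 (show (1:ℝ) < 2 by norm_num)
    have h3 := tendsto_pow_const_div_const_pow_of_one_lt 0 (show (1:ℝ) < 2 by norm_num)
    have h4 := h2.add h3
    rw [add_zero] at h4
    refine h4.congr fun k => ?_
    rw [pow_one, pow_zero]
    ring
  have hd : 0 < (1 / (4 * l)) ^ (4/3 : ℝ) := by positivity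
  obtain ⟨K, hK⟩ := Filter.eventually_atTop.1 (h1.eventually (gt_mem_nhds hd))
  refine ⟨max K 2, fun k hk => ?_⟩
  have hk1 : K ≤ k := (le_max_left _ _).trans hk
  have hk2 : 2 ≤ k := (le_max_right _ _).trans hk
  have g1 := hK k hk1
  have hk3 : (2:ℝ) ≤ a k := by exact_mod_cast hk2.trans (ha2 k)
  have hlg : 1 ≤ (a k : ℝ) * Real.log 2 := by nlinarith [log2_ge]
  rw [abs_of_nonneg (tt_nonneg hl.le a b k hlg)]
  have h5 : Real.log ((a k : ℝ) * Real.log 2) ≤ (k : ℝ) + 1 := by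
    have h6 := Real.log_le_sub_one_of_pos (show 0 < (a k : ℝ) * Real.log 2 by linarith)
    have h7 : (a k : ℝ) ≤ k + 1 := by exact_mod_cast ha k
    nlinarith [log2_le, log2_pos]
  have h8 : 0 ≤ Real.log ((a k : ℝ) * Real.log 2) := Real.log_nonneg hlg
  have h9 : (2:ℝ) ^ k ≤ 2 ^ (b k) := pow_le_pow_right₀ (by norm_num) (hb k)
  have h10 : Real.log ((a k : ℝ) * Real.log 2) ^ (3/4 : ℝ) / ((2:ℝ) ^ (b k)) ^ (3/4 : ℝ) ≤
      1 / (4 * l) := by
    rw [← Real.div_rpow h8 (by positivity)]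
    have h11 : Real.log ((a k : ℝ) * Real.log 2) / 2 ^ (b k) ≤ (1 / (4 * l)) ^ (4/3 : ℝ) := by
      refine le_trans ?_ g1.le
      exact div_le_div₀ (by positivity) h5 (by positivity) h9
    have h12 := Real.rpow_le_rpow (div_nonneg h8 (by positivity)) h11
      (show (0:ℝ) ≤ 3/4 by norm_num)
    refine h12.trans (le_of_eq ?_)
    rw [← Real.rpow_mul (by positivity)]
    norm_num
  unfold tt
  rw [mul_div_assoc]
  calc l * (Real.log ((a k : ℝ) * Real.log 2) ^ (3/4 : ℝ) / ((2:ℝ) ^ (b k)) ^ (3/4 : ℝ))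
      ≤ l * (1 / (4 * l)) := mul_le_mul_of_nonneg_left h10 hl.le
    _ = 1/4 := by field_simp

theorem log_two_pow (k : ℕ) : Real.log ((2:ℝ) ^ k) = k * Real.log 2 := Real.log_pow 2 k

/-- the perturbation inside an annulus, from above -/
theorem pert_le {l : ℝ} (hl : 0 ≤ l) {k r : ℕ} (hk : 2 ≤ k) (h1 : 2 ^ k < r)
    (h2 : r ≤ 2 ^ (k + 1)) : pert l r ≤ tt l (fun k => k + 1) (fun k => k) k := by
  have hr0 : (0:ℝ) < r := by
    have : 0 < r := by omega
    exact_mod_cast this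
  have h1' : (2:ℝ) ^ k ≤ r := by exact_mod_cast h1.le
  have h2' : (r:ℝ) ≤ 2 ^ (k + 1) := by exact_mod_cast h2
  have hk' : (2:ℝ) ≤ k := by exact_mod_cast hk
  have l1 : k * Real.log 2 ≤ Real.log r := by
    rw [← log_two_pow]; exact Real.log_le_log (by positivity) h1'
  have l2 : Real.log r ≤ ((k + 1 : ℕ) : ℝ) * Real.log 2 := by
    rw [← log_two_pow]; exact Real.log_le_log hr0 h2'
  have l3 : 1 ≤ (k:ℝ) * Real.log 2 := by nlinarith [log2_ge]
  have l4 : 0 ≤ Real.log (Real.log r) := Real.log_nonneg (by linarith)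
  have l5 : Real.log (Real.log r) ≤ Real.log (((k + 1 : ℕ) : ℝ) * Real.log 2) :=
    Real.log_le_log (by linarith) l2
  unfold pert tt
  refine div_le_div₀ ?_ ?_ (by positivity) ?_
  · have := l4.trans l5
    positivity
  · exact mul_le_mul_of_nonneg_left (Real.rpow_le_rpow l4 l5 (by norm_num)) hl
  · exact Real.rpow_le_rpow (by positivity) h1' (by norm_num)

/-- the perturbation inside an annulus, from below -/
theorem le_pert {l : ℝ} (hl : 0 ≤ l) {k r : ℕ} (hk : 2 ≤ k) (h1 : 2 ^ k < r)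
    (h2 : r ≤ 2 ^ (k + 1)) : tt l (fun k => k) (fun k => k + 1) k ≤ pert l r := by
  have hr0 : (0:ℝ) < r := by
    have : 0 < r := by omega
    exact_mod_cast this
  have h1' : (2:ℝ) ^ k ≤ r := by exact_mod_cast h1.le
  have h2' : (r:ℝ) ≤ 2 ^ (k + 1) := by exact_mod_cast h2
  have hk' : (2:ℝ) ≤ k := by exact_mod_cast hk
  have l1 : k * Real.log 2 ≤ Real.log r := by
    rw [← log_two_pow]; exact Real.log_le_log (by positivity) h1'
  have l3 : 1 ≤ (k:ℝ) * Real.log 2 := by nlinarith [log2_ge]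
  have l4 : 0 ≤ Real.log ((k:ℝ) * Real.log 2) := Real.log_nonneg l3
  have l5 : Real.log ((k:ℝ) * Real.log 2) ≤ Real.log (Real.log r) :=
    Real.log_le_log (by linarith) l1
  unfold pert tt
  refine div_le_div₀ ?_ ?_ (by positivity) ?_
  · have := l4.trans l5
    positivity
  · exact mul_le_mul_of_nonneg_left (Real.rpow_le_rpow l4 l5 (by norm_num)) hl
  · exact Real.rpow_le_rpow hr0.le h2' (by norm_num)

theorem thr_low : ∃ l : ℝ, 0 < l ∧ ∀ (p : sqLattice.edgeSet → unitInterval) (R : ℕ),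
    (∀ e, R ≤ rad e → (p e : ℝ) ≤ 1/2 + pert l (rad e)) →
      ∀ᵐ ω ∂(law p), ∀ v, (clus ω v).Finite := by
  obtain ⟨C, hC, h⟩ := no_perc
  refine ⟨(1 / C) ^ (3/4 : ℝ), by positivity, ?_⟩
  obtain ⟨l, hl⟩ : ∃ l : ℝ, l = (1 / C) ^ (3/4 : ℝ) := ⟨_, rfl⟩
  rw [← hl]
  have hl0 : 0 < l := by rw [hl]; positivity
  have hl1 : C * l ^ (4/3 : ℝ) = 1 := by
    rw [hl, rp43 (by positivity)]; field_simp
  intro p R hp
  obtain ⟨K, hK⟩ := tt_small hl0 (fun k => k + 1) (fun k => k) (fun _ => le_rfl)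
    (fun k => Nat.le_succ k) (fun _ => le_rfl)
  refine h p (tt l (fun k => k + 1) (fun k => k)) (max K (max R 2))
    (fun k hk => hK k ((le_max_left _ _).trans hk)) ?_ ?_
  · intro k hk e h1 h2
    have hk1 : max R 2 ≤ k := (le_max_right _ _).trans hk
    have hk2 : 2 ≤ k := (le_max_right _ _).trans hk1
    have hk3 : R ≤ k := (le_max_left _ _).trans hk1
    have hk4 : k < 2 ^ k := Nat.lt_two_pow_self
    have g1 := hp e (by omega)
    have g2 := pert_le hl0.le hk2 h1 h2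
    linarith
  · intro hs
    have h1 : ∀ k : ℕ, 2 ≤ k → 1 / ((k:ℝ) + 1) ≤ gg C (2 ^ k) (tt l (fun k => k + 1) (fun k => k) k) := by
      intro k hk
      have hk' : (2:ℝ) ≤ k := by exact_mod_cast hk
      have hlg : 1 ≤ (((k + 1 : ℕ)) : ℝ) * Real.log 2 := by
        push_cast; nlinarith [log2_ge]
      rw [gg_of_nonneg (tt_nonneg hl0.le _ _ k hlg)]
      unfold ph
      rw [tt_scale hl0.le (fun k => k + 1) (fun k => k) k (2 ^ k) hlg]
      have e1 : C * ((2:ℝ) ^ k / 2 ^ k * (l ^ (4/3 : ℝ) * Real.log (((k + 1 : ℕ) : ℝ) * Real.log 2))) =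
          Real.log (((k + 1 : ℕ) : ℝ) * Real.log 2) := by
        rw [div_self (by positivity), one_mul, ← mul_assoc, hl1, one_mul]
      rw [e1, Real.exp_neg, Real.exp_log (by linarith), one_div]
      apply inv_anti₀ (by linarith)
      push_cast
      nlinarith [log2_le]
    have h2 : Summable (fun k : ℕ => 1 / ((k:ℝ) + 1)) := by
      refine (summable_nat_add_iff 2).1 ?_
      refine Summable.of_nonneg_of_le (fun k => by positivity) (fun k => h1 (k + 2) (by omega)) ?_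
      exact (summable_nat_add_iff 2).2 hs
    have h3 : ¬ Summable (fun k : ℕ => 1 / ((k:ℝ) + 1)) := by
      intro h4
      have h5 : Summable (fun k : ℕ => 1 / (((k + 1 : ℕ)):ℝ)) := by
        refine h4.congr fun k => ?_
        push_cast; rfl
      exact Real.not_summable_one_div_natCast
        ((summable_nat_add_iff (f := fun k : ℕ => 1 / (k:ℝ)) 1).1 h5)
    exact h3 h2

theorem thr_up : ∃ l : ℝ, 0 < l ∧ ∀ (p : sqLattice.edgeSet → unitInterval) (R : ℕ),
    (∀ e, R ≤ rad e → 1/2 + pert l (rad e) ≤ (p e : ℝ)) →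
      ∀ᵐ ω ∂(law p), (∃ v, (clus ω v).Infinite) ∧
        ∀ u v, (clus ω u).Infinite → (clus ω v).Infinite → (openGraph ω).Reachable u v := by
  obtain ⟨c, hc, h⟩ := perc
  refine ⟨(4 / c) ^ (3/4 : ℝ), by positivity, ?_⟩
  obtain ⟨l, hl⟩ : ∃ l : ℝ, l = (4 / c) ^ (3/4 : ℝ) := ⟨_, rfl⟩
  rw [← hl]
  have hl0 : 0 < l := by rw [hl]; positivity
  have hl1 : c * l ^ (4/3 : ℝ) = 4 := by
    rw [hl, rp43 (by positivity)]; field_simp
  intro p R hp
  obtain ⟨K, hK⟩ := tt_small hl0 (fun k => k) (fun k => k + 1) (fun k => Nat.le_succ k)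
    (fun _ => le_rfl) (fun k => Nat.le_succ k)
  have hlow : ∀ k, max R 2 ≤ k → ∀ e, 2 ^ k < rad e → rad e ≤ 2 ^ (k + 1) →
      1/2 + tt l (fun k => k) (fun k => k + 1) k ≤ (p e : ℝ) := by
    intro k hk1 e h1 h2
    have hk2 : 2 ≤ k := (le_max_right _ _).trans hk1
    have hk3 : R ≤ k := (le_max_left _ _).trans hk1
    have hk4 : k < 2 ^ k := Nat.lt_two_pow_self
    have g1 := hp e (by omega)
    have g2 := le_pert hl0.le hk2 h1 h2
    linarith
  have A := h p (tt l (fun k => k) (fun k => k + 1)) (max K (max R 2))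
    (fun k hk => hK k ((le_max_left _ _).trans hk))
    (fun k hk => hlow k ((le_max_right _ _).trans hk)) (by
      refine (summable_nat_add_iff 2).1 ?_
      have h5 : Summable (fun k : ℕ => (4:ℝ) * (1 / (((k + 2 : ℕ)):ℝ) ^ 2)) :=
        (((summable_nat_add_iff 2).2 (Real.summable_one_div_nat_pow.2 (by norm_num : 1 < 2)))).mul_left 4
      refine Summable.of_nonneg_of_le (fun k => (gg_pos (by positivity)).le) (fun k => ?_) h5
      have hk' : (2:ℝ) ≤ ((k + 2 : ℕ) : ℝ) := by push_cast; linarith [Nat.cast_nonneg (α := ℝ) k]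
      obtain ⟨m, hm⟩ : ∃ m : ℕ, m = k + 2 := ⟨_, rfl⟩
      rw [← hm] at hk' ⊢
      have hlg : 1 ≤ (m : ℝ) * Real.log 2 := by nlinarith [log2_ge]
      rw [gg_of_nonneg (tt_nonneg hl0.le _ _ m hlg)]
      unfold ph
      rw [tt_scale hl0.le (fun k => k) (fun k => k + 1) m (2 ^ m) hlg]
      have e1 : c * ((2:ℝ) ^ m / 2 ^ (m + 1) * (l ^ (4/3 : ℝ) * Real.log ((m : ℝ) * Real.log 2))) =
          2 * Real.log ((m : ℝ) * Real.log 2) := by
        have e2 : (2:ℝ) ^ m / 2 ^ (m + 1) = 1/2 := by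
          rw [pow_succ]; field_simp
        rw [e2]
        calc c * (1/2 * (l ^ (4/3 : ℝ) * Real.log ((m : ℝ) * Real.log 2)))
            = 1/2 * (c * l ^ (4/3 : ℝ)) * Real.log ((m : ℝ) * Real.log 2) := by ring
          _ = _ := by rw [hl1]; ring
      rw [e1]
      have e3 : -(2 * Real.log ((m : ℝ) * Real.log 2)) =
          -(Real.log (((m : ℝ) * Real.log 2) ^ 2)) := by rw [Real.log_pow]; push_cast; ring
      rw [e3, Real.exp_neg, Real.exp_log (by positivity), mul_pow]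
      have hm0 : (0:ℝ) < m := by linarith
      rw [one_div, mul_inv]
      have h6 : ((Real.log 2) ^ 2)⁻¹ ≤ 4 := by
        rw [inv_le_comm₀ (by have := log2_pos; positivity) (by norm_num)]
        nlinarith [log2_ge]
      have h7 : 0 < ((m:ℝ) ^ 2)⁻¹ := by positivity
      nlinarith)
  have B := uniq p (max R 2) (fun e he => by
    -- every edge outside a large box is in one of the annuli
    have h1 : 2 ^ 2 ≤ rad e := (pow2_mono (le_max_right R 2)).trans he.le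
    have hR : max R 2 < 2 ^ (max R 2) := Nat.lt_two_pow_self
    have g1 := hp e (by
      have := le_max_left R 2
      omega)
    have hr4 : (4:ℝ) ≤ rad e := by exact_mod_cast h1
    have l1 : 1 ≤ Real.log (rad e) := by
      have h2 := Real.log_le_log (by norm_num) hr4
      have h3 : Real.log 4 = 2 * Real.log 2 := by
        rw [show (4:ℝ) = 2 ^ 2 by norm_num, Real.log_pow]; push_cast; ring
      have := log2_ge
      linarith
    have l2 : 0 ≤ Real.log (Real.log (rad e)) := Real.log_nonneg l1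
    have l3 : 0 ≤ pert l (rad e) := by
      unfold pert
      positivity
    linarith)
  filter_upwards [A, B] with ω h1 h2
  exact ⟨h1, h2⟩

theorem in_ann {K r : ℕ} (h : 2 ^ K < r) : ∃ k, K ≤ k ∧ 2 ^ k < r ∧ r ≤ 2 ^ (k + 1) := by
  have h0 : (1:ℕ) ≤ 2 ^ K := Nat.one_le_two_pow
  have h1 : r - 1 ≠ 0 := by omega
  have h2 := Nat.pow_log_le_self 2 h1
  have h3 := Nat.lt_pow_succ_log_self (b := 2) (by norm_num) (r - 1)
  refine ⟨Nat.log 2 (r - 1), ?_, by omega, ?_⟩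
  · exact Nat.le_log_of_pow_le (by norm_num) (by omega)
  · rw [Nat.succ_eq_add_one] at h3
    omega

/-- Percolation, with uniqueness. -/
theorem perc_uniq : ∃ c : ℝ, 0 < c ∧ ∀ (p : sqLattice.edgeSet → unitInterval) (t : ℕ → ℝ)
    (K : ℕ), (∀ k, K ≤ k → |t k| ≤ 1/4) →
    (∀ k, K ≤ k → ∀ e, 2 ^ k < rad e → rad e ≤ 2 ^ (k + 1) → 1/2 + t k ≤ (p e : ℝ)) →
    Summable (fun k => gg c (2 ^ k) (t k)) → ∀ᵐ ω ∂(law p), (∃ v, (clus ω v).Infinite) ∧
      ∀ u v, (clus ω u).Infinite → (clus ω v).Infinite → (openGraph ω).Reachable u v := by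
  obtain ⟨c, hc, h⟩ := perc
  refine ⟨c, hc, ?_⟩
  intro p t K ht hp hs
  have A := h p t K ht hp hs
  obtain ⟨N, hN⟩ := Filter.eventually_atTop.1
    (hs.tendsto_atTop_zero.eventually (gt_mem_nhds (show (0:ℝ) < 1 by norm_num)))
  have hpos : ∀ k, N ≤ k → 0 ≤ t k := by
    intro k hk
    by_contra hcon
    push Not at hcon
    have h1 : gg c (2 ^ k) (t k) < 1 := hN k hk
    rw [gg_of_neg hcon] at h1
    have h2 : 0 ≤ (-(t k)) ^ (4/3 : ℝ) := Real.rpow_nonneg (by linarith) _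
    have h3 : (0:ℝ) < 2 ^ k := by positivity
    nlinarith
  have B := uniq p (max K N) (fun e he => by
    obtain ⟨k, h1, h2, h3⟩ := in_ann he
    have h4 := hp k ((le_max_left _ _).trans h1) e h2 h3
    have h5 := hpos k ((le_max_right _ _).trans h1)
    linarith)
  filter_upwards [A, B] with ω h1 h2
  exact ⟨h1, h2⟩

/-- Exponents. -/
theorem expo : ∃ c C : ℝ, 0 < c ∧ 0 < C ∧ ∀ (l : ℝ) (i j : ℕ), i ≤ j →
    |l| ≤ ((2:ℝ) ^ i) ^ (3/4 : ℝ) / 4 → ∀ p : sqLattice.edgeSet → unitInterval,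
    (∀ e, 2 ^ i < rad e → rad e ≤ 2 ^ j → (p e : ℝ) = 1/2 + l / (rad e : ℝ) ^ (3/4 : ℝ)) →
      Real.exp (-(C * gg c 1 l * ((j : ℝ) - i))) ≤ (law p).real (Cross i j) ∧
      (law p).real (Cross i j) ≤ Real.exp (-(c * gg C 1 l * ((j : ℝ) - i))) := by
  obtain ⟨c1, C1, hc1, hC1, h1⟩ := inf_low
  obtain ⟨c2, C2, hc2, hC2, h2⟩ := inf_up
  obtain ⟨c, hc⟩ : ∃ c : ℝ, c = min (c1 / 2) (c2 / 2) := ⟨_, rfl⟩
  obtain ⟨C, hC⟩ : ∃ C : ℝ, C = max C1 C2 := ⟨_, rfl⟩
  have hc0 : 0 < c := by rw [hc]; exact lt_min (by positivity) (by positivity)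
  have hC0 : 0 < C := by rw [hC]; exact lt_max_of_lt_left hC1
  have hcc1 : c ≤ c1 / 2 := by rw [hc]; exact min_le_left _ _
  have hcc2 : c ≤ c2 / 2 := by rw [hc]; exact min_le_right _ _
  have hCC1 : C1 ≤ C := by rw [hC]; exact le_max_left _ _
  have hCC2 : C2 ≤ C := by rw [hC]; exact le_max_right _ _
  refine ⟨c, C, hc0, hC0, ?_⟩
  intro l i j hij hl p hp
  have hji : (0:ℝ) ≤ (j : ℝ) - i := by
    have : (i:ℝ) ≤ j := by exact_mod_cast hij
    linarith
  have hcast : ((j - i : ℕ) : ℝ) = (j : ℝ) - i := by push_cast [Nat.cast_sub hij]; ring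
  -- generic facts
  have hpow : ∀ m : ℕ, (0:ℝ) < ((2:ℝ) ^ m) ^ (3/4 : ℝ) := fun m => by positivity
  have hmono : ∀ m n : ℕ, m ≤ n → ((2:ℝ) ^ m) ^ (3/4 : ℝ) ≤ ((2:ℝ) ^ n) ^ (3/4 : ℝ) :=
    fun m n hmn => Real.rpow_le_rpow (by positivity) (pow_le_pow_right₀ (by norm_num) hmn)
      (by norm_num)
  have hab : ∀ m : ℕ, i ≤ m → |l / ((2:ℝ) ^ m) ^ (3/4 : ℝ)| ≤ 1/4 := by
    intro m hm
    rw [abs_div, abs_of_pos (hpow m), div_le_iff₀ (hpow m)]
    have := hmono i m hm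
    linarith
  have hsc : ∀ (a : ℝ) (k m : ℕ), gg a (2 ^ k) (l / ((2:ℝ) ^ m) ^ (3/4 : ℝ)) =
      gg a ((2:ℝ) ^ k / 2 ^ m) l := by
    intro a k m
    rcases le_or_gt 0 l with h0 | h0
    · rw [gg_of_nonneg (div_nonneg h0 (hpow m).le), gg_of_nonneg h0]
      unfold ph
      rw [scale_div h0 (by positivity)]
    · rw [gg_of_neg (div_neg_of_neg_of_pos h0 (hpow m)), gg_of_neg h0, ← neg_div,
        scale_div (by linarith) (by positivity)]
  have e0 : ∀ k : ℕ, (2:ℝ) ^ k / 2 ^ k = 1 := fun k => div_self (by positivity)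
  have e1 : ∀ k : ℕ, (2:ℝ) ^ k / 2 ^ (k + 1) = 1/2 := fun k => by rw [pow_succ]; field_simp
  have hr : ∀ k e, 2 ^ k < rad e → rad e ≤ 2 ^ (k + 1) →
      ((2:ℝ) ^ k) ^ (3/4 : ℝ) ≤ (rad e : ℝ) ^ (3/4 : ℝ) ∧
      (rad e : ℝ) ^ (3/4 : ℝ) ≤ ((2:ℝ) ^ (k + 1)) ^ (3/4 : ℝ) := by
    intro k e h3 h4
    have h3' : (2:ℝ) ^ k ≤ rad e := by exact_mod_cast h3.le
    have h4' : (rad e : ℝ) ≤ 2 ^ (k + 1) := by exact_mod_cast h4
    exact ⟨Real.rpow_le_rpow (by positivity) h3' (by norm_num),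
      Real.rpow_le_rpow (by positivity) h4' (by norm_num)⟩
  have hpe : ∀ k, i ≤ k → k < j → ∀ e, 2 ^ k < rad e → rad e ≤ 2 ^ (k + 1) →
      (p e : ℝ) = 1/2 + l / (rad e : ℝ) ^ (3/4 : ℝ) := by
    intro k hk1 hk2 e h3 h4
    refine hp e ?_ ?_
    · have : (2 ^ i : ℕ) ≤ 2 ^ k := pow2_mono hk1
      omega
    · exact h4.trans (pow2_mono hk2)
  have hsum : ∀ x : ℝ, ∑ _k ∈ Ico i j, x = ((j : ℝ) - i) * x := by
    intro x
    rw [Finset.sum_const, Nat.card_Ico, nsmul_eq_mul, hcast]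
  rcases le_or_gt 0 l with h0 | h0
  · constructor
    · have g := h1 i j hij p (fun k => l / ((2:ℝ) ^ (k + 1)) ^ (3/4 : ℝ))
        (fun k hk _ => hab (k + 1) (by omega))
        (fun k hk1 hk2 e h3 h4 => by
          rw [hpe k hk1 hk2 e h3 h4]
          have h5 := (hr k e h3 h4).2
          have h6 : 0 < (rad e : ℝ) ^ (3/4 : ℝ) := lt_of_lt_of_le (hpow k) (hr k e h3 h4).1
          have := div_le_div_of_nonneg_left h0 h6 h5
          linarith)
      refine le_trans ?_ g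
      apply Real.exp_le_exp.2
      have h7 : ∑ k ∈ Ico i j, gg c1 (2 ^ k) (l / ((2:ℝ) ^ (k + 1)) ^ (3/4 : ℝ)) ≤
          ∑ _k ∈ Ico i j, gg c 1 l := by
        refine Finset.sum_le_sum fun k _ => ?_
        rw [hsc, e1, gg_of_nonneg h0, gg_of_nonneg h0]
        unfold ph
        apply Real.exp_le_exp.2
        have := Real.rpow_nonneg h0 (4/3)
        nlinarith
      rw [hsum] at h7
      have h8 := mul_le_mul_of_nonneg_left h7 hC1.le
      have h9 : 0 ≤ ((j : ℝ) - i) * gg c 1 l := mul_nonneg hji (gg_pos (by norm_num)).le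
      have h10 := mul_le_mul_of_nonneg_right hCC1 h9
      nlinarith
    · have g := h2 i j hij p (fun k => l / ((2:ℝ) ^ k) ^ (3/4 : ℝ))
        (fun k hk _ => hab k hk)
        (fun k hk1 hk2 e h3 h4 => by
          rw [hpe k hk1 hk2 e h3 h4]
          have := div_le_div_of_nonneg_left h0 (hpow k) (hr k e h3 h4).1
          linarith)
      refine g.trans ?_
      apply Real.exp_le_exp.2
      have h7 : ∑ _k ∈ Ico i j, gg C 1 l ≤
          ∑ k ∈ Ico i j, gg C2 (2 ^ k) (l / ((2:ℝ) ^ k) ^ (3/4 : ℝ)) := by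
        refine Finset.sum_le_sum fun k _ => ?_
        rw [hsc, e0]
        exact gg_anti_c hCC2 (by norm_num)
      rw [hsum] at h7
      have h8 := mul_le_mul_of_nonneg_left h7 hc2.le
      have h9 : 0 ≤ ((j : ℝ) - i) * gg C 1 l := mul_nonneg hji (gg_pos (by norm_num)).le
      have h10 := mul_le_mul_of_nonneg_right (show c ≤ c2 by linarith) h9
      nlinarith
  · constructor
    · have g := h1 i j hij p (fun k => l / ((2:ℝ) ^ k) ^ (3/4 : ℝ))
        (fun k hk _ => hab k hk)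
        (fun k hk1 hk2 e h3 h4 => by
          rw [hpe k hk1 hk2 e h3 h4]
          have h5 := div_le_div_of_nonneg_left (show 0 ≤ -l by linarith) (hpow k) (hr k e h3 h4).1
          rw [neg_div, neg_div] at h5
          linarith)
      refine le_trans ?_ g
      apply Real.exp_le_exp.2
      have h7 : ∑ k ∈ Ico i j, gg c1 (2 ^ k) (l / ((2:ℝ) ^ k) ^ (3/4 : ℝ)) ≤
          ∑ _k ∈ Ico i j, gg c 1 l := by
        refine Finset.sum_le_sum fun k _ => ?_
        rw [hsc, e0]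
        exact gg_anti_c (by linarith) (by norm_num)
      rw [hsum] at h7
      have h8 := mul_le_mul_of_nonneg_left h7 hC1.le
      have h9 : 0 ≤ ((j : ℝ) - i) * gg c 1 l := mul_nonneg hji (gg_pos (by norm_num)).le
      have h10 := mul_le_mul_of_nonneg_right hCC1 h9
      nlinarith
    · have g := h2 i j hij p (fun k => l / ((2:ℝ) ^ (k + 1)) ^ (3/4 : ℝ))
        (fun k hk _ => hab (k + 1) (by omega))
        (fun k hk1 hk2 e h3 h4 => by
          rw [hpe k hk1 hk2 e h3 h4]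
          have h6 : 0 < (rad e : ℝ) ^ (3/4 : ℝ) := lt_of_lt_of_le (hpow k) (hr k e h3 h4).1
          have h5 := div_le_div_of_nonneg_left (show 0 ≤ -l by linarith) h6 (hr k e h3 h4).2
          rw [neg_div, neg_div] at h5
          linarith)
      refine g.trans ?_
      apply Real.exp_le_exp.2
      have h7 : ∑ _k ∈ Ico i j, (1/2) * gg C 1 l ≤
          ∑ k ∈ Ico i j, gg C2 (2 ^ k) (l / ((2:ℝ) ^ (k + 1)) ^ (3/4 : ℝ)) := by
        refine Finset.sum_le_sum fun k _ => ?_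
        rw [hsc, e1, gg_of_neg h0, gg_of_neg h0]
        linarith
      rw [hsum] at h7
      have h8 := mul_le_mul_of_nonneg_left h7 hc2.le
      have h9 : 0 ≤ ((j : ℝ) - i) * gg C 1 l := mul_nonneg hji (gg_pos (by norm_num)).le
      have h10 := mul_le_mul_of_nonneg_right hcc2 h9
      nlinarith

end Q292.Lam
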